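import Pool.Agent.H34.MI.F
import Pool.Agent.H34.LS.W1

/-!
The final theorem: a lacunary hyperbolic group on which all symmetric finitely supported generating
measures have trivial boundary, and a symmetric generating measure with finite moments of every
order below two has non-trivial boundary.
-/

namespace Pool.Agent.H34.MI

open Pool.Agent.H34.LS Filter Topology

theorem gg_trivial {mu : GG → ℝ} (h : IsFSProb mu) (hg : Generating mu) (hs : Symm mu) :
    TrivialBoundary mu := by
  refine window_criterion hgt gS gS_closure window_finite ?_ h hg hs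
  refine diverge_of_frequently hgt gS window_finite (K := 18) (by norm_num) ?_
  refine Eventually.frequently ?_
  filter_upwards [eventually_ge_atTop 1] with n hn
  exact window_log n hn

theorem wl_pow {G : Type} [Group G] {S : Set G} (hS : Subgroup.closure S = ⊤) (t : G) (n : ℕ) :
    wordLength S (t ^ n) ≤ n * wordLength S t := by
  induction n with
  | zero => rw [pow_zero, wl_one]; simp
  | succ n ih =>
    rw [pow_succ, add_mul, one_mul]
    exact (wl_mul hS _ _).trans (Nat.add_le_add_right ih _)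

theorem moment {G : Type} [Group G] {S : Set G} (t : G) {p : ℝ}
    (hp0 : 0 ≤ p) (hp : p < 2) {i : ℕ → G} (hi : ∀ k, wordLength S (i k) ≤ 2 ^ k * wordLength S t) :
    Summable fun k => WW k * (wordLength S (i k) : ℝ) ^ p := by
  have hr0 : (0 : ℝ) < 2 ^ p / 4 := by positivity
  have hr1 : (2 : ℝ) ^ p / 4 < 1 := by
    rw [div_lt_one (by norm_num)]
    calc (2 : ℝ) ^ p < 2 ^ (2 : ℝ) := Real.rpow_lt_rpow_of_exponent_lt (by norm_num) hp
      _ = 4 := by norm_num
  have hsum := (summable_shift hr0 hr1).mul_left ((wordLength S t : ℝ) ^ p / 2592)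
  refine Summable.of_nonneg_of_le (fun k => ?_) (fun k => ?_) hsum
  · exact mul_nonneg (WW_pos k).le (Real.rpow_nonneg (Nat.cast_nonneg _) _)
  · have h1 : (wordLength S (i k) : ℝ) ≤ 2 ^ k * wordLength S t := by exact_mod_cast hi k
    have h2 : (wordLength S (i k) : ℝ) ^ p ≤ (2 ^ k * (wordLength S t : ℝ)) ^ p :=
      Real.rpow_le_rpow (Nat.cast_nonneg _) h1 hp0
    have h3 : ((2 : ℝ) ^ k * (wordLength S t : ℝ)) ^ p = (2 ^ p) ^ k * (wordLength S t : ℝ) ^ p := by
      rw [Real.mul_rpow (by positivity) (Nat.cast_nonneg _), ← Real.rpow_natCast 2 k,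
        ← Real.rpow_mul (by norm_num), mul_comm (k : ℝ) p, Real.rpow_mul (by norm_num),
        Real.rpow_natCast]
    rw [h3] at h2
    have h4 := WW_upper k
    calc WW k * (wordLength S (i k) : ℝ) ^ p ≤ RR k * ((2 ^ p) ^ k * (wordLength S t : ℝ) ^ p) := by
          gcongr
          exact (RR_pos k).le
      _ = (wordLength S t : ℝ) ^ p / 2592 * (((k : ℝ) + 6) ^ 4 * (2 ^ p / 4) ^ k) := by
          unfold RR
          rw [div_pow]
          field_simp

theorem moment_instability :
    ∃ (G : Type) (_ : Group G), Group.FG G ∧ LocFinByZ G ∧ LacunaryHyperbolic G ∧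
      (∃ mu : G → ℝ, IsFSProb mu ∧ Generating mu ∧ Symm mu) ∧
      (∀ mu : G → ℝ, IsFSProb mu → Generating mu → Symm mu → TrivialBoundary mu) ∧
      ∃ mu : G → ℝ, (∀ g, 0 ≤ mu g) ∧ HasSum mu 1 ∧ Generating mu ∧ Symm mu ∧
        (∀ S : Set G, S.Finite → Subgroup.closure S = ⊤ → ∀ p : ℝ, 0 ≤ p → p < 2 →
          Summable fun g => mu g * (wordLength S g : ℝ) ^ p) ∧
        ∃ f : G → ℝ, (∃ C, ∀ g, |f g| ≤ C) ∧
          (∀ g, HasSum (fun h => mu h * f (g * h)) (f g)) ∧ ∃ x y, f x ≠ f y := by
  obtain ⟨G, iG, theta, hfg, hloc, hlac, hsurj, hiff, hlift⟩ := lifting gg_fg gg_locFinByZ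
  refine ⟨G, iG, hfg, hloc, hlac, exists_symm hfg, ?_, ?_⟩
  · intro mu h hg hs
    rw [hiff mu h hg]
    exact gg_trivial (push_fs theta h) (push_gen theta hsurj h hg) (push_symm theta hs)
  obtain ⟨nu', hnu, hgen, hsym, hpush⟩ := hlift nu nu_fs nu_gen nu_symm
  obtain ⟨t, ht⟩ := hsurj gT
  set i : ℕ → G := fun k => t ^ (2 ^ k) with hi
  set j : ℕ → G := fun k => (t ^ (2 ^ k))⁻¹ with hj
  have hti : ∀ k, theta (i k) = gT ^ (2 ^ k) := fun k => by
    rw [hi]
    dsimp only
    rw [map_pow, ht]
  have hii : Function.Injective i := by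
    intro k l hkl
    have h1 : Multiplicative.toAdd (hgt (theta (i k))) = Multiplicative.toAdd (hgt (theta (i l))) := by
      rw [hkl]
    rw [hti, hti, map_pow hgt, map_pow hgt, toAdd_pow, toAdd_pow, hgt_T] at h1
    simp only [nsmul_eq_mul, mul_one, Nat.cast_inj] at h1
    exact Nat.pow_right_injective le_rfl h1
  have hji : Function.Injective j := fun k l hkl => hii (inv_injective hkl)
  set mu : G → ℝ := fun g => 1 / 2 * nu' g + 1 / 2 * (Function.extend i WW 0 g +
    Function.extend j WW 0 g) with hmu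
  have hWn : ∀ k, 0 ≤ WW k := fun k => (WW_pos k).le
  have hint : ∀ (φ : G → ℝ) (a b c : ℝ), HasSum (fun g => nu' g * φ g) a →
      HasSum (fun k => WW k * φ (i k)) b → HasSum (fun k => WW k * φ (j k)) c →
      HasSum (fun g => mu g * φ g) (1 / 2 * a + 1 / 2 * (b + c)) := by
    intro φ a b c ha hb hc
    have h1 := (ha.mul_left (1 / 2)).add
      ((((ext_hasSum hii WW φ).2 hb).add ((ext_hasSum hji WW φ).2 hc)).mul_left (1 / 2))
    refine h1.congr_fun fun g => ?_
    rw [hmu]
    ring
  have hnusum : HasSum (fun g => nu' g * 1) 1 := by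
    have h1 : HasSum (fun y => push theta nu' y * 1) 1 := by
      rw [hpush]
      have h2 := nu_hasSum fun _ => 1
      norm_num at h2 ⊢
      exact h2
    exact push_hasSum theta hnu.finite (fun _ => 1) h1
  refine ⟨mu, fun g => ?_, ?_, ?_, ?_, ?_, ?_⟩
  · have h1 := hnu.nonneg g
    have h2 := ext_nonneg hii hWn g
    have h3 := ext_nonneg hji hWn g
    rw [hmu]
    dsimp only
    linarith
  · have h1 := hint (fun _ => 1) 1 (1 / 2) (1 / 2) hnusum (by simpa using WW_hasSum)
      (by simpa using WW_hasSum)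
    norm_num at h1
    exact h1
  · unfold Generating at hgen ⊢
    refine top_le_iff.1 ?_
    rw [← hgen]
    refine Submonoid.closure_mono fun g hg => ?_
    rw [Function.mem_support] at hg ⊢
    have h1 : 0 < nu' g := lt_of_le_of_ne (hnu.nonneg g) (Ne.symm hg)
    have h2 := ext_nonneg hii hWn g
    have h3 := ext_nonneg hji hWn g
    rw [hmu]
    dsimp only
    have : 0 < 1 / 2 * nu' g + 1 / 2 * (Function.extend i WW 0 g + Function.extend j WW 0 g) := by
      linarith
    exact this.ne'
  · intro g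
    rw [hmu]
    dsimp only
    rw [hsym g, ext_inv hii hji (fun _ => rfl) WW g,
      ext_inv hji hii (fun k => (inv_inv _).symm) WW g]
    ring
  · intro S hSf hS p hp0 hp
    have hs1 : Summable fun g => nu' g * (wordLength S g : ℝ) ^ p := by
      refine summable_of_hasFiniteSupport (hnu.finite.subset fun g hg => ?_)
      rw [Function.mem_support] at hg ⊢
      exact left_ne_zero_of_mul hg
    have hs2 : Summable fun k => WW k * (wordLength S (i k) : ℝ) ^ p :=
      moment t hp0 hp fun k => wl_pow hS t (2 ^ k)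
    have hs3 : Summable fun k => WW k * (wordLength S (j k) : ℝ) ^ p := by
      refine moment t hp0 hp fun k => ?_
      have h1 : wordLength S (j k) = wordLength S (i k) := wl_inv hS (i k)
      rw [h1]
      exact wl_pow hS t (2 ^ k)
    exact (hint (fun g => (wordLength S g : ℝ) ^ p) _ _ _ hs1.hasSum hs2.hasSum hs3.hasSum).summable
  · obtain ⟨w, hw1, hwne, hw⟩ := exists_ww
    refine ⟨fun g => w ((theta g : Equiv.Perm XX)⁻¹ x0), ⟨1, fun g => hw1 _⟩, fun g => ?_, ?_⟩
    · set q : XX := (theta g : Equiv.Perm XX)⁻¹ x0 with hq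
      set φ : GG → ℝ := fun y => w ((y : Equiv.Perm XX)⁻¹ q) with hφ
      have hmul : ∀ h, w ((theta (g * h) : Equiv.Perm XX)⁻¹ x0) = φ (theta h) := by
        intro h
        rw [hφ]
        dsimp only
        rw [map_mul, Subgroup.coe_mul, mul_inv_rev, Equiv.Perm.mul_apply, ← hq]
      have hTk : ∀ k : ℕ, ((gT ^ (2 ^ k) : GG) : Equiv.Perm XX) = tX (2 ^ k) := by
        intro k
        have h1 := tX_zpow ((2 ^ k : ℕ) : ℤ)
        rw [zpow_natCast] at h1
        rw [Subgroup.coe_pow]
        push_cast at h1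
        exact h1
      have hφi : ∀ k, φ (theta (i k)) = w ((tX (2 ^ k)).symm q) := by
        intro k
        rw [hti, hφ]
        dsimp only
        rw [hTk]
        rfl
      have hφj : ∀ k, φ (theta (j k)) = w (tX (2 ^ k) q) := by
        intro k
        have h1 : theta (j k) = (gT ^ (2 ^ k))⁻¹ := by
          rw [← hti, ← map_inv]
        rw [h1, hφ]
        dsimp only
        rw [Subgroup.coe_inv, inv_inv, hTk]
      have hbdd : ∀ v : ℕ → ℝ, (∀ k, |v k| ≤ 1) → Summable fun k => WW k * v k := by
        intro v hv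
        refine Summable.of_norm_bounded WW_hasSum.summable fun k => ?_
        rw [norm_mul, Real.norm_eq_abs, Real.norm_eq_abs, abs_of_nonneg (hWn k)]
        have := mul_le_mul_of_nonneg_left (hv k) (hWn k)
        rwa [mul_one] at this
      have hsi := (hbdd (fun k => w ((tX (2 ^ k)).symm q)) fun k => hw1 _).hasSum
      have hsj := (hbdd (fun k => w (tX (2 ^ k) q)) fun k => hw1 _).hasSum
      have hA := hint (fun h => φ (theta h)) _ _ _
        (push_hasSum theta hnu.finite φ (by rw [hpush]; exact nu_hasSum φ))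
        (by simp only [hφi]; exact hsi) (by simp only [hφj]; exact hsj)
      have hB := hw q
      have hC : HasSum (fun k => WW k / 2 * (w (tX (2 ^ k) q) + w ((tX (2 ^ k)).symm q)))
          (1 / 2 * ((∑' k, WW k * w ((tX (2 ^ k)).symm q)) + ∑' k, WW k * w (tX (2 ^ k) q))) := by
        refine ((hsi.add hsj).mul_left (1 / 2)).congr_fun fun k => ?_
        ring
      have hD := hB.unique hC
      have e1 : φ gA = w (aX q) := rfl
      have e2 : φ gB = w (bX q) := rfl
      have e3 : φ gT = w ((tX 1).symm q) := rfl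
      have e4 : φ gT⁻¹ = w (tX 1 q) := rfl
      rw [← hD, e1, e2, e3, e4] at hA
      have hE : w q = 1 / 2 * (1 / 4 * (w (aX q) + w (bX q) + w ((tX 1).symm q) + w (tX 1 q))) +
          (w q - 1 / 8 * (w (aX q) + w (bX q) + w (tX 1 q) + w ((tX 1).symm q))) := by ring
      dsimp only
      simp only [hmul]
      rw [hE]
      exact hA
    · obtain ⟨b, hb⟩ := hsurj gB
      refine ⟨1, b, ?_⟩
      dsimp only
      rw [map_one, hb]
      have h1 : ((gB : Equiv.Perm XX))⁻¹ x0 = bX x0 := rfl
      rw [h1]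
      exact hwne

end Pool.Agent.H34.MI
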