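import Pool.Agent.H34.MI.E

/-!
The Green function of a transient symmetric chain as a limit of truncated Green functions.
-/

namespace Pool.Agent.H34.MI

open Filter Topology

variable {Y : Type*}

/-- the point mass. -/
noncomputable def dl (o y : Y) : ℝ := Set.indicator {o} (fun _ => 1) y

theorem dl_nonneg (o y : Y) : 0 ≤ dl o y := Set.indicator_nonneg (fun _ _ => zero_le_one) y

theorem dl_self (o : Y) : dl o o = 1 := Set.indicator_of_mem (Set.mem_singleton o) _

theorem dl_ne {o y : Y} (h : y ≠ o) : dl o y = 0 :=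
  Set.indicator_of_notMem (fun hm => h (Set.mem_singleton_iff.1 hm)) _

theorem dl_support (o : Y) : (Function.support (dl o)).Finite :=
  (Set.finite_singleton o).subset fun y hy => by
    by_contra h
    exact hy (dl_ne h)

/-- the truncated Green functions. -/
noncomputable def gg (b : ℝ) (c : ℕ → ℝ) (σ : ℕ → Equiv.Perm Y) (o : Y) (K : ℕ) : ℕ → Y → ℝ
  | 0 => fun _ => 0
  | n + 1 => fun y => dl o y + QQ b c σ K (gg b c σ o K n) y

section
variable {b : ℝ} {c : ℕ → ℝ} {σ : ℕ → Equiv.Perm Y} {o : Y}

theorem QQ_mono (hb : 0 ≤ b) (hc : ∀ k, 0 ≤ c k) (K : ℕ) {f g : Y → ℝ} (h : ∀ y, f y ≤ g y) (y : Y) :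
    QQ b c σ K f y ≤ QQ b c σ K g y := by
  unfold QQ
  refine add_le_add (mul_le_mul_of_nonneg_left (h y) hb) (Finset.sum_le_sum fun k _ => ?_)
  exact mul_le_mul_of_nonneg_left (add_le_add (h _) (h _)) (by have := hc k; linarith)

theorem QQ_succ (K : ℕ) (f : Y → ℝ) (y : Y) :
    QQ b c σ (K + 1) f y = QQ b c σ K f y + c K / 2 * (f (σ K y) + f ((σ K).symm y)) := by
  unfold QQ
  rw [Finset.sum_range_succ]
  ring

theorem gg_nonneg (hb : 0 ≤ b) (hc : ∀ k, 0 ≤ c k) (K n : ℕ) (y : Y) : 0 ≤ gg b c σ o K n y := by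
  induction n generalizing y with
  | zero => exact le_rfl
  | succ n ih =>
    have h := QQ_mono (σ := σ) hb hc K (f := fun _ => 0) ih y
    have h0 : QQ b c σ K (fun _ => 0) y = 0 := by
      unfold QQ
      simp
    rw [h0] at h
    exact add_nonneg (dl_nonneg o y) h

theorem gg_mono (hb : 0 ≤ b) (hc : ∀ k, 0 ≤ c k) (K n : ℕ) (y : Y) :
    gg b c σ o K n y ≤ gg b c σ o K (n + 1) y := by
  induction n generalizing y with
  | zero => exact gg_nonneg hb hc K 1 y
  | succ n ih => exact add_le_add le_rfl (QQ_mono hb hc K ih y)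

theorem gg_monoK (hb : 0 ≤ b) (hc : ∀ k, 0 ≤ c k) (K n : ℕ) (y : Y) :
    gg b c σ o K n y ≤ gg b c σ o (K + 1) n y := by
  induction n generalizing y with
  | zero => exact le_rfl
  | succ n ih =>
    refine add_le_add le_rfl ((QQ_mono hb hc K ih y).trans ?_)
    rw [QQ_succ]
    have h1 := gg_nonneg (σ := σ) (o := o) hb hc (K + 1) n (σ K y)
    have h2 := gg_nonneg (σ := σ) (o := o) hb hc (K + 1) n ((σ K).symm y)
    have h3 := hc K
    have h4 : 0 ≤ c K / 2 * (gg b c σ o (K + 1) n (σ K y) + gg b c σ o (K + 1) n ((σ K).symm y)) :=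
      mul_nonneg (by linarith) (add_nonneg h1 h2)
    linarith

theorem QQ_support (K : ℕ) {f : Y → ℝ} (hf : (Function.support f).Finite) :
    (Function.support (QQ b c σ K f)).Finite := by
  induction K with
  | zero =>
    refine hf.subset fun y hy => ?_
    rw [Function.mem_support] at hy ⊢
    intro h
    apply hy
    unfold QQ
    simp [h]
  | succ K ih =>
    have h1 := support_comp hf (σ K)
    have h2 := support_comp hf (σ K).symm
    refine (ih.union (h1.union h2)).subset fun y hy => ?_
    rw [Function.mem_support, QQ_succ] at hy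
    by_contra hcon
    simp only [Set.mem_union, Function.mem_support, not_or, not_not] at hcon
    apply hy
    rw [hcon.1, hcon.2.1, hcon.2.2]
    ring

theorem gg_support (K n : ℕ) : (Function.support (gg b c σ o K n)).Finite := by
  induction n with
  | zero =>
    refine Set.finite_empty.subset fun y hy => ?_
    exact absurd rfl hy
  | succ n ih =>
    exact ((dl_support o).union (QQ_support K ih)).subset (Function.support_add _ _)

/-- the energy of the truncated Green function. -/
theorem DD_gg (hb : 0 ≤ b) (hc : ∀ k, 0 ≤ c k) (K n : ℕ) :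
    DD b c σ K (gg b c σ o K n) ≤ gg b c σ o K n o := by
  have hs := gg_support (b := b) (c := c) (σ := σ) (o := o) K n
  have h1 : ∑' y, gg b c σ o K n y * dl o y = gg b c σ o K n o := by
    rw [tsum_eq_single o fun y hy => by rw [dl_ne hy, mul_zero], dl_self, mul_one]
  rw [← h1]
  refine Summable.tsum_le_tsum (fun y => ?_) (summable_fs hs _) (summable_fs hs _)
  have h2 := gg_mono (σ := σ) (o := o) hb hc K n y
  have h3 := gg_nonneg (σ := σ) (o := o) hb hc K n y
  have h4 : gg b c σ o K (n + 1) y = dl o y + QQ b c σ K (gg b c σ o K n) y := rfl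
  apply mul_le_mul_of_nonneg_left _ h3
  linarith

variable {C : ℝ}

theorem gg_le (hb : 0 ≤ b) (hc : ∀ k, 0 ≤ c k) (hC : 0 ≤ C) (K : ℕ)
    (hsum : b + ∑ k ∈ Finset.range K, c k ≤ 1)
    (hcap : ∀ f : Y → ℝ, (Function.support f).Finite → f o ^ 2 ≤ C * DD b c σ K f)
    (n : ℕ) (y : Y) : gg b c σ o K n y ≤ C := by
  have ho : ∀ n, gg b c σ o K n o ≤ C := by
    intro n
    have h1 := hcap _ (gg_support (b := b) (c := c) (σ := σ) (o := o) K n)
    have h2 := DD_gg (σ := σ) (o := o) hb hc K n
    have h3 := gg_nonneg (σ := σ) (o := o) hb hc K n o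
    have h4 : gg b c σ o K n o ^ 2 ≤ C * gg b c σ o K n o :=
      h1.trans (mul_le_mul_of_nonneg_left h2 hC)
    by_contra hcon
    push Not at hcon
    nlinarith
  induction n generalizing y with
  | zero => exact hC
  | succ n ih =>
    by_cases hy : y = o
    · rw [hy]
      exact ho (n + 1)
    · have h1 := QQ_mono (σ := σ) hb hc K (g := fun _ => C) ih y
      have h2 : QQ b c σ K (fun _ => C) y = (b + ∑ k ∈ Finset.range K, c k) * C := by
        unfold QQ
        rw [add_mul, Finset.sum_mul]
        congr 1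
        refine Finset.sum_congr rfl fun k _ => ?_
        ring
      have h3 : gg b c σ o K (n + 1) y = dl o y + QQ b c σ K (gg b c σ o K n) y := rfl
      rw [h3, dl_ne hy, zero_add]
      rw [h2] at h1
      refine h1.trans ?_
      nlinarith

/-- the Green function. -/
theorem green (hb : 0 ≤ b) (hc : ∀ k, 0 ≤ c k) (hC : 0 ≤ C) (hsum : HasSum c (1 - b))
    (K0 : ℕ)
    (hcap : ∀ K, K0 ≤ K → ∀ f : Y → ℝ, (Function.support f).Finite →
      f o ^ 2 ≤ C * DD b c σ K f) :
    ∃ G : Y → ℝ, (∀ y, 0 ≤ G y ∧ G y ≤ C) ∧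
      ∀ y, HasSum (fun k => c k / 2 * (G (σ k y) + G ((σ k).symm y)))
        (G y - dl o y - b * G y) := by
  have hpart : ∀ K, b + ∑ k ∈ Finset.range K, c k ≤ 1 := by
    intro K
    have := sum_le_hasSum (Finset.range K) (fun k _ => hc k) hsum
    linarith
  set v : ℕ → Y → ℝ := fun N => gg b c σ o (K0 + N) N with hv
  have hvmono : ∀ y, Monotone fun N => v N y := by
    intro y
    refine monotone_nat_of_le_succ fun N => ?_
    exact (gg_monoK hb hc (K0 + N) N y).trans (gg_mono hb hc (K0 + N + 1) N y)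
  have hv0 : ∀ N y, 0 ≤ v N y := fun N y => gg_nonneg hb hc _ _ y
  have hvC : ∀ N y, v N y ≤ C := fun N y =>
    gg_le hb hc hC (K0 + N) (hpart _) (hcap (K0 + N) (Nat.le_add_right _ _)) N y
  have hbdd : ∀ y, BddAbove (Set.range fun N => v N y) := fun y =>
    ⟨C, by rintro _ ⟨N, rfl⟩; exact hvC N y⟩
  set G : Y → ℝ := fun y => ⨆ N, v N y with hG
  have hlim : ∀ y, Tendsto (fun N => v N y) atTop (𝓝 (G y)) := fun y =>
    tendsto_atTop_ciSup (hvmono y) (hbdd y)
  have hG0 : ∀ y, 0 ≤ G y ∧ G y ≤ C := fun y =>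
    ⟨ge_of_tendsto' (hlim y) fun N => hv0 N y, le_of_tendsto' (hlim y) fun N => hvC N y⟩
  refine ⟨G, hG0, fun y => ?_⟩
  have hsm : Summable fun k => c k / 2 * (G (σ k y) + G ((σ k).symm y)) := by
    refine Summable.of_nonneg_of_le (fun k => ?_) (fun k => ?_) (hsum.summable.mul_left C)
    · exact mul_nonneg (by have := hc k; linarith) (add_nonneg (hG0 _).1 (hG0 _).1)
    · have h1 := (hG0 (σ k y)).2
      have h2 := (hG0 ((σ k).symm y)).2
      have h3 := hc k
      nlinarith
  -- the middle sequence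
  have hmid : Tendsto (fun N => gg b c σ o (K0 + N) (N + 1) y) atTop (𝓝 (G y)) := by
    refine tendsto_of_tendsto_of_tendsto_of_le_of_le (hlim y) ((hlim y).comp (tendsto_add_atTop_nat 1))
      (fun N => ?_) (fun N => ?_)
    · exact gg_mono hb hc (K0 + N) N y
    · exact gg_monoK hb hc (K0 + N) (N + 1) y
  set F : ℕ → ℕ → ℝ := fun N k => Set.indicator (Set.Iio (K0 + N))
    (fun k => c k / 2 * (v N (σ k y) + v N ((σ k).symm y))) k with hF
  have hdom : Tendsto (fun N => ∑' k, F N k) atTop
      (𝓝 (∑' k, c k / 2 * (G (σ k y) + G ((σ k).symm y)))) := by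
    refine tendsto_tsum_of_dominated_convergence (hsum.summable.mul_left C) (fun k => ?_) ?_
    · have h1 : Tendsto (fun N => c k / 2 * (v N (σ k y) + v N ((σ k).symm y))) atTop
          (𝓝 (c k / 2 * (G (σ k y) + G ((σ k).symm y)))) :=
        ((hlim _).add (hlim _)).const_mul _
      refine h1.congr' ?_
      filter_upwards [eventually_gt_atTop k] with N hN
      rw [hF]
      dsimp only
      rw [Set.indicator_of_mem]
      exact Set.mem_Iio.2 (by omega)
    · refine Eventually.of_forall fun N k => ?_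
      rw [hF]
      dsimp only
      rw [Set.indicator_apply]
      split_ifs
      · have h1 := hvC N (σ k y)
        have h2 := hvC N ((σ k).symm y)
        have h3 := hc k
        have h4 := hv0 N (σ k y)
        have h5 := hv0 N ((σ k).symm y)
        rw [Real.norm_of_nonneg (mul_nonneg (by linarith) (add_nonneg h4 h5))]
        nlinarith
      · rw [norm_zero]
        exact mul_nonneg hC (hc k)
  have heq : ∀ N, gg b c σ o (K0 + N) (N + 1) y = dl o y + (b * v N y + ∑' k, F N k) := by
    intro N
    have h1 : ∑' k, F N k = ∑ k ∈ Finset.range (K0 + N),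
        c k / 2 * (v N (σ k y) + v N ((σ k).symm y)) := by
      rw [tsum_eq_sum (s := Finset.range (K0 + N))]
      · refine Finset.sum_congr rfl fun k hk => ?_
        rw [hF]
        dsimp only
        rw [Set.indicator_of_mem]
        exact Set.mem_Iio.2 (Finset.mem_range.1 hk)
      · intro k hk
        rw [hF]
        dsimp only
        rw [Set.indicator_of_notMem]
        rw [Set.mem_Iio]
        exact fun h => hk (Finset.mem_range.2 h)
    rw [h1]
    rfl
  have hlim2 : Tendsto (fun N => dl o y + (b * v N y + ∑' k, F N k)) atTop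
      (𝓝 (dl o y + (b * G y + ∑' k, c k / 2 * (G (σ k y) + G ((σ k).symm y))))) :=
    (((hlim y).const_mul b).add hdom).const_add _
  have huniq := tendsto_nhds_unique (hmid.congr heq) hlim2
  have hval : G y - dl o y - b * G y = ∑' k, c k / 2 * (G (σ k y) + G ((σ k).symm y)) := by
    linarith
  rw [hval]
  exact hsm.hasSum

end

end Pool.Agent.H34.MI
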