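import Pool.Agent.H34.MI.C
import Pool.Agent.H34.MI.G

/-!
The function `u` on the graph `Y`: bounded, harmonic for the chain killed at `(0, 0)` with a change of
sign, and not zero at `(0, 0)`.
-/

namespace Pool.Agent.H34.MI

theorem exists_u : ∃ u : YY → ℝ, (∀ y, |u y| ≤ 1) ∧ 0 < u (0, 0) ∧
    ∀ y, HasSum (fun k => WW k / 2 * (u (sh (2 ^ k) y) + u ((sh (2 ^ k)).symm y)))
      (7 / 8 * u y + 1 / 4 * (dl (0, 0) y * u y) - 1 / 8 * u (tg y) -
        1 / 8 * (u (sh 1 y) + u ((sh 1).symm y))) := by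
  obtain ⟨G, hG, hs⟩ := green (Y := YY) (b := 1 / 8) (c := cc) (σ := sg) (o := (0, 0)) (C := 900)
    (by norm_num) cc_nonneg (by norm_num) cc_hasSum 2 (by
      intro K hK f hf
      obtain ⟨n, rfl⟩ : ∃ n, K = n + 2 := ⟨K - 2, by omega⟩
      exact cap n hf)
  have hGo := (hG (0, 0)).1
  -- the value at the other points is at most the value at `o`: not needed, rescale
  set κ : ℝ := 1 / (4 + G (0, 0)) with hκ
  have hκ0 : 0 < κ := by positivity
  have huo : 1 - κ * G (0, 0) = 4 * κ := by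
    rw [hκ]
    field_simp
    ring
  set M : ℝ := 1 + κ * 900 with hM
  have hM0 : 0 < M := by positivity
  refine ⟨fun y => (1 - κ * G y) / M, fun y => ?_, ?_, fun y => ?_⟩
  · have h1 := hG y
    have h2 : κ * G y ≤ κ * 900 := mul_le_mul_of_nonneg_left h1.2 hκ0.le
    have h3 : 0 ≤ κ * G y := mul_nonneg hκ0.le h1.1
    rw [abs_div, abs_of_pos hM0, div_le_one hM0, abs_le]
    constructor <;> linarith
  · dsimp only
    rw [huo]
    positivity
  · -- the sum over all permutations of the chain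
    have h1 : HasSum (fun k => cc k / 2 * ((1 - κ * G (sg k y)) / M +
        (1 - κ * G ((sg k).symm y)) / M)) (((1 - 1 / 8) - κ * (G y - dl (0, 0) y - 1 / 8 * G y)) / M) := by
      have h2 := (cc_hasSum.sub ((hs y).mul_left κ)).div_const M
      refine h2.congr_fun ?_
      intro k
      ring
    rw [← hasSum_nat_add_iff' 2] at h1
    rw [Finset.sum_range_succ, Finset.sum_range_succ, Finset.sum_range_zero] at h1
    have h3 : dl (0, 0) y * ((1 - κ * G y) / M) = dl (0, 0) y * (4 * κ / M) := by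
      by_cases hy : y = (0, 0)
      · rw [hy, huo]
      · rw [dl_ne hy]
        ring
    rw [h3]
    have h4 : tg.symm y = tg y := rfl
    have e0 : sg 0 = tg := rfl
    have e1 : sg 1 = sh 1 := rfl
    have e2 : ∀ k, sg (k + 2) = sh (2 ^ k) := fun _ => rfl
    have c0 : cc 0 = 1 / 8 := rfl
    have c1 : cc 1 = 1 / 4 := rfl
    have c2 : ∀ k, cc (k + 2) = WW k := fun _ => rfl
    simp only [zero_add, e0, e1, e2, c0, c1, c2, h4] at h1
    have h5 : ∀ a b : ℝ, HasSum (fun k => WW k / 2 * ((1 - κ * G (sh (2 ^ k) y)) / M +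
        (1 - κ * G ((sh (2 ^ k)).symm y)) / M)) a → a = b →
        HasSum (fun k => WW k / 2 * ((1 - κ * G (sh (2 ^ k) y)) / M +
        (1 - κ * G ((sh (2 ^ k)).symm y)) / M)) b := fun a b ha hab => hab ▸ ha
    refine h5 _ _ h1 ?_
    ring

end Pool.Agent.H34.MI
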