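import Pool.Agent.H34.MI.B
import Pool.Agent.H34.MI.U
import Pool.Agent.H34.LS.A1
import Pool.Agent.H34.LS.LL5
import Pool.Agent.H34.LS.V21

/-!
The measures.
-/

namespace Pool.Agent.H34.MI

open Pool.Agent.H34.LS Filter Topology

universe u v

/-! ### General facts -/

/-- the point mass at `a`. -/
noncomputable def pa {G : Type u} (a g : G) : ℝ := Set.indicator {a} (fun _ => 1) g

theorem pa_self {G : Type u} (a : G) : pa a a = 1 := Set.indicator_of_mem (Set.mem_singleton a) _

theorem pa_ne {G : Type u} {a g : G} (h : g ≠ a) : pa a g = 0 :=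
  Set.indicator_of_notMem (fun hm => h (Set.mem_singleton_iff.1 hm)) _

theorem pa_nonneg {G : Type u} (a g : G) : 0 ≤ pa a g :=
  Set.indicator_nonneg (fun _ _ => zero_le_one) g

theorem pa_inv {G : Type u} [Group G] (a g : G) : pa a g⁻¹ = pa a⁻¹ g := by
  by_cases h : g = a⁻¹
  · rw [h, inv_inv, pa_self, pa_self]
  · rw [pa_ne h, pa_ne]
    intro h2
    exact h (by rw [← h2, inv_inv])

theorem pa_hasSum {G : Type u} (a : G) (φ : G → ℝ) : HasSum (fun g => pa a g * φ g) (φ a) := by
  have h := hasSum_single (f := fun g => pa a g * φ g) a (fun g hg => by rw [pa_ne hg, zero_mul])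
  rwa [pa_self, one_mul] at h

theorem ext_hasSum {G : Type u} {i : ℕ → G} (hi : Function.Injective i) (W : ℕ → ℝ) (φ : G → ℝ)
    {a : ℝ} : HasSum (fun g => Function.extend i W 0 g * φ g) a ↔
      HasSum (fun k => W k * φ (i k)) a := by
  have h : (fun g => Function.extend i W 0 g * φ g) =
      Function.extend i (fun k => W k * φ (i k)) 0 := by
    funext g
    by_cases hg : ∃ k, i k = g
    · obtain ⟨k, rfl⟩ := hg
      rw [hi.extend_apply, hi.extend_apply]
    · rw [Function.extend_apply' _ _ _ hg, Function.extend_apply' _ _ _ hg]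
      simp
  rw [h]
  exact hasSum_extend_zero hi

theorem ext_nonneg {G : Type u} {i : ℕ → G} (hi : Function.Injective i) {W : ℕ → ℝ}
    (hW : ∀ k, 0 ≤ W k) (g : G) : 0 ≤ Function.extend i W 0 g := by
  by_cases hg : ∃ k, i k = g
  · obtain ⟨k, rfl⟩ := hg
    rw [hi.extend_apply]
    exact hW k
  · rw [Function.extend_apply' _ _ _ hg]
    exact le_rfl

theorem ext_inv {G : Type u} [Group G] {i j : ℕ → G} (hi : Function.Injective i)
    (hj : Function.Injective j) (hij : ∀ k, j k = (i k)⁻¹) (W : ℕ → ℝ) (g : G) :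
    Function.extend i W 0 g⁻¹ = Function.extend j W 0 g := by
  by_cases hg : ∃ k, j k = g
  · obtain ⟨k, rfl⟩ := hg
    rw [hj.extend_apply, hij, inv_inv, hi.extend_apply]
  · rw [Function.extend_apply' _ _ _ hg, Function.extend_apply']
    · rfl
    · rintro ⟨k, hk⟩
      exact hg ⟨k, by rw [hij, hk, inv_inv]⟩

/-- integration against the image measure. -/
theorem push_hasSum {G : Type u} {H : Type v} (f : G → H) {mu : G → ℝ}
    (h : (Function.support mu).Finite) (φ : H → ℝ) {a : ℝ}
    (ha : HasSum (fun y => push f mu y * φ y) a) : HasSum (fun g => mu g * φ (f g)) a := by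
  classical
  set P : G →₀ ℝ := Finsupp.ofSupportFinite mu h with hP
  have hPa : ∀ g, P g = mu g := fun _ => rfl
  have hPs : P.support = h.toFinset := rfl
  have hpush : ∀ y, push f mu y = (Finsupp.mapDomain f P) y := by
    intro y
    unfold push
    rw [finsum_mem_def, finsum_eq_sum_of_support_subset (s := h.toFinset)]
    · rw [Finsupp.mapDomain, Finsupp.sum_apply, Finsupp.sum, hPs]
      refine Finset.sum_congr rfl fun g _ => ?_
      rw [hPa, Finsupp.single_apply, Set.indicator_apply]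
      rfl
    · intro g hg
      rw [Set.Finite.coe_toFinset, Function.mem_support]
      intro h0
      rw [Function.mem_support, Set.indicator_apply, h0, ite_self] at hg
      exact hg rfl
  have h1 : HasSum (fun g => mu g * φ (f g)) (P.sum fun g b => b * φ (f g)) := by
    rw [Finsupp.sum]
    refine hasSum_sum_of_ne_finset_zero fun g hg => ?_
    rw [Finsupp.notMem_support_iff, hPa] at hg
    rw [hg, zero_mul]
  have h2 : HasSum (fun y => push f mu y * φ y) ((Finsupp.mapDomain f P).sum fun y b => b * φ y) := by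
    rw [Finsupp.sum]
    simp only [hpush]
    refine hasSum_sum_of_ne_finset_zero fun y hy => ?_
    rw [Finsupp.notMem_support_iff] at hy
    rw [hy, zero_mul]
  have h3 : (Finsupp.mapDomain f P).sum (fun y b => b * φ y) = P.sum fun g b => b * φ (f g) :=
    Finsupp.sum_mapDomain_index (fun _ => zero_mul _) (fun _ _ _ => add_mul _ _ _)
  rw [h3] at h2
  rw [ha.unique h2]
  exact h1

/-! ### The measure on the group of permutations -/

/-- the simple random walk. -/
noncomputable def nu (g : GG) : ℝ := 1 / 4 * (pa gA g + pa gB g + pa gT g + pa gT⁻¹ g)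

theorem nu_hasSum (φ : GG → ℝ) :
    HasSum (fun g => nu g * φ g) (1 / 4 * (φ gA + φ gB + φ gT + φ gT⁻¹)) := by
  have h := ((((pa_hasSum gA φ).add (pa_hasSum gB φ)).add (pa_hasSum gT φ)).add
    (pa_hasSum gT⁻¹ φ)).mul_left (1 / 4)
  refine h.congr_fun fun g => ?_
  unfold nu
  ring

theorem nu_zero {g : GG} (h1 : g ≠ gA) (h2 : g ≠ gB) (h3 : g ≠ gT) (h4 : g ≠ gT⁻¹) : nu g = 0 := by
  unfold nu
  rw [pa_ne h1, pa_ne h2, pa_ne h3, pa_ne h4]
  ring

theorem nu_fs : IsFSProb nu := by
  have hfin : (Function.support nu).Finite := by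
    refine (((Set.finite_singleton gT⁻¹).insert gT).insert gB |>.insert gA).subset fun g hg => ?_
    by_contra hc
    simp only [Set.mem_insert_iff, Set.mem_singleton_iff, not_or] at hc
    exact hg (nu_zero hc.1 hc.2.1 hc.2.2.1 hc.2.2.2)
  refine ⟨fun g => ?_, hfin, ?_⟩
  · unfold nu
    have h1 := pa_nonneg gA g
    have h2 := pa_nonneg gB g
    have h3 := pa_nonneg gT g
    have h4 := pa_nonneg gT⁻¹ g
    positivity
  · have h0 : ∑' g, nu g = ∑ᶠ g, nu g := tsum_eq_finsum hfin
    rw [← h0]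
    have h := (nu_hasSum fun _ => 1).tsum_eq
    simp only [mul_one] at h
    rw [h]
    norm_num

theorem gA_inv : gA⁻¹ = gA := Subtype.ext aX_inv

theorem gB_inv : gB⁻¹ = gB := Subtype.ext bX_inv

theorem nu_symm : Symm nu := by
  intro g
  unfold nu
  rw [pa_inv, pa_inv, pa_inv, pa_inv, gA_inv, gB_inv, inv_inv]
  ring

theorem nu_gen : Generating nu := by
  unfold Generating
  have h1 : Submonoid.closure (gS ∪ gS⁻¹) = ⊤ := by
    rw [← Subgroup.closure_toSubmonoid, gS_closure]
    rfl
  refine top_le_iff.1 ?_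
  rw [← h1]
  have hpos : ∀ g, nu g = 0 → pa gA g = 0 ∧ pa gB g = 0 ∧ pa gT g = 0 ∧ pa gT⁻¹ g = 0 := by
    intro g hg
    unfold nu at hg
    have h1 := pa_nonneg gA g
    have h2 := pa_nonneg gB g
    have h3 := pa_nonneg gT g
    have h4 := pa_nonneg gT⁻¹ g
    refine ⟨?_, ?_, ?_, ?_⟩ <;> linarith
  have hA : nu gA ≠ 0 := fun h => by
    have := (hpos _ h).1
    rw [pa_self] at this
    exact one_ne_zero this
  have hB : nu gB ≠ 0 := fun h => by
    have := (hpos _ h).2.1
    rw [pa_self] at this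
    exact one_ne_zero this
  have hT : nu gT ≠ 0 := fun h => by
    have := (hpos _ h).2.2.1
    rw [pa_self] at this
    exact one_ne_zero this
  have hT' : nu gT⁻¹ ≠ 0 := fun h => by
    have := (hpos _ h).2.2.2
    rw [pa_self] at this
    exact one_ne_zero this
  refine Submonoid.closure_mono ?_
  intro x hx
  rw [Function.mem_support]
  rcases hx with hx | hx
  · rcases hx with rfl | rfl | hx
    · exact hT
    · exact hA
    · rw [Set.mem_singleton_iff.1 hx]
      exact hB
  · rcases Set.mem_inv.1 hx with hx | hx | hx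
    · rw [← inv_inv x, hx]
      exact hT'
    · rw [← inv_inv x, hx, gA_inv]
      exact hA
    · rw [← inv_inv x, Set.mem_singleton_iff.1 hx, gB_inv]
      exact hB

/-! ### The harmonic function -/

/-- the sign. -/
noncomputable def sgn (x : ZMod 2) : ℝ := if x = 0 then 1 else -1

theorem sgn_zero : sgn 0 = 1 := if_pos rfl

theorem sgn_flip (x : ZMod 2) : sgn (x + 1) = -sgn x := by
  have z2 : ∀ a : ZMod 2, a = 0 ∨ a = 1 := by decide
  have h1 : sgn 1 = -1 := if_neg (by decide)
  rcases z2 x with rfl | rfl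
  · rw [zero_add, h1, sgn_zero]
  · have : (1 : ZMod 2) + 1 = 0 := by decide
    rw [this, h1, sgn_zero, neg_neg]

theorem sgn_abs (x : ZMod 2) : |sgn x| = 1 := by
  unfold sgn
  split_ifs <;> norm_num

theorem sgn_pt (x : ZMod 2) (y : YY) : sgn (x + pt (0, 0) y) = (1 - 2 * dl (0, 0) y) * sgn x := by
  by_cases hy : y = (0, 0)
  · rw [hy, pt_self, dl_self, sgn_flip]
    ring
  · rw [pt_ne hy, dl_ne hy, add_zero]
    ring

/-- the function on `X`. -/
noncomputable def ww (u : YY → ℝ) (x : XX) : ℝ := sgn x.2 * u x.1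

theorem exists_ww : ∃ w : XX → ℝ, (∀ x, |w x| ≤ 1) ∧ w x0 ≠ w (bX x0) ∧
    ∀ x, HasSum (fun k => WW k / 2 * (w (tX (2 ^ k) x) + w ((tX (2 ^ k)).symm x)))
      (w x - 1 / 8 * (w (aX x) + w (bX x) + w (tX 1 x) + w ((tX 1).symm x))) := by
  obtain ⟨u, hu1, huo, hu⟩ := exists_u
  refine ⟨ww u, fun x => ?_, ?_, fun x => ?_⟩
  · unfold ww
    rw [abs_mul, sgn_abs, one_mul]
    exact hu1 _
  · unfold ww
    rw [bX_apply]
    have h0 : x0.1 = (0, 0) := rfl
    dsimp only
    rw [h0, sgn_pt, dl_self]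
    have h1 : sgn x0.2 = 1 := sgn_zero
    rw [h1]
    intro h
    linarith
  · have h := (hu x.1).mul_left (sgn x.2)
    have h5 : sgn x.2 * (7 / 8 * u x.1 + 1 / 4 * (dl (0, 0) x.1 * u x.1) - 1 / 8 * u (tg x.1) -
        1 / 8 * (u (sh 1 x.1) + u ((sh 1).symm x.1))) =
        ww u x - 1 / 8 * (ww u (aX x) + ww u (bX x) + ww u (tX 1 x) + ww u ((tX 1).symm x)) := by
      have e1 : ww u (aX x) = sgn x.2 * u (tg x.1) := rfl
      have e2 : ww u (bX x) = sgn (x.2 + pt (0, 0) x.1) * u x.1 := rfl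
      have e3 : ww u (tX 1 x) = sgn x.2 * u (sh 1 x.1) := rfl
      have e4 : ww u ((tX 1).symm x) = sgn x.2 * u ((sh 1).symm x.1) := rfl
      rw [e1, e2, e3, e4, sgn_pt]
      unfold ww
      ring
    rw [h5] at h
    refine h.congr_fun fun k => ?_
    have e3 : ww u (tX (2 ^ k) x) = sgn x.2 * u (sh (2 ^ k) x.1) := rfl
    have e4 : ww u ((tX (2 ^ k)).symm x) = sgn x.2 * u ((sh (2 ^ k)).symm x.1) := rfl
    rw [e3, e4]
    ring

end Pool.Agent.H34.MI
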