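import Pool.Agent.H34.LS.Win
import Pool.Agent.H34.LS.V13

/-!
A group with a surjective height and finite windows is (locally finite)-by-`ℤ`.
-/

namespace Pool.Agent.H34.MI

open Pool.Agent.H34.LS

universe u

variable {G : Type u} [Group G]

theorem exists_window (f : G →* Multiplicative ℤ) (S : Set G) (hS : Subgroup.closure S = ⊤) (g : G) :
    ∃ w : ℕ, g ∈ window f S w := by
  have hg : g ∈ Subgroup.closure S := by rw [hS]; exact Subgroup.mem_top g
  rw [← Subgroup.mem_toSubmonoid, Subgroup.closure_toSubmonoid] at hg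
  obtain ⟨l, hl, rfl⟩ := Submonoid.exists_list_of_mem_closure hg
  refine ⟨(Finset.range (l.length + 1)).sup fun k =>
    (Multiplicative.toAdd (f ((l.take k).prod))).natAbs, l,
    fun x hx => (hl x hx).imp id Set.mem_inv.1, rfl, fun k => ?_⟩
  have h1 : ∀ k ∈ Finset.range (l.length + 1),
      (Multiplicative.toAdd (f ((l.take k).prod))).natAbs ≤
      (Finset.range (l.length + 1)).sup fun k =>
        (Multiplicative.toAdd (f ((l.take k).prod))).natAbs := fun k hk =>
    Finset.le_sup (f := fun k => (Multiplicative.toAdd (f ((l.take k).prod))).natAbs) hk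
  rw [Int.abs_eq_natAbs]
  rcases le_total k l.length with hk | hk
  · exact_mod_cast h1 k (Finset.mem_range.2 (by omega))
  · have h2 := h1 l.length (Finset.mem_range.2 (by omega))
    rw [List.take_length] at h2
    rw [List.take_of_length_le hk]
    exact_mod_cast h2

/-- products of elements of height zero of a window. -/
theorem window_mul (f : G →* Multiplicative ℤ) (S : Set G) {w : ℕ} {a b : G}
    (ha : a ∈ window f S w) (hb : b ∈ window f S w) (ha0 : f a = 1) : a * b ∈ window f S w := by
  obtain ⟨l, hl, rfl, h1⟩ := ha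
  obtain ⟨m, hm, rfl, h2⟩ := hb
  refine ⟨l ++ m, ?_, List.prod_append, fun k => ?_⟩
  · intro x hx
    rcases List.mem_append.1 hx with hx | hx
    · exact hl x hx
    · exact hm x hx
  · rw [List.take_append, List.prod_append, map_mul]
    rcases le_total k l.length with hk | hk
    · have h3 : k - l.length = 0 := by omega
      rw [h3, List.take_zero, List.prod_nil, map_one, mul_one]
      exact h1 k
    · rw [List.take_of_length_le hk, ha0, one_mul]
      exact h2 _

theorem locFinByZ_of_windows (f : G →* Multiplicative ℤ) (hf : Function.Surjective f) (S : Set G)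
    (hS : Subgroup.closure S = ⊤) (hfin : ∀ w, (window f S w).Finite) : LocFinByZ G := by
  refine ⟨f, hf, fun s hs hsk => ?_⟩
  choose W hW using exists_window f S hS
  set w := hs.toFinset.sup W with hw
  have hsw : ∀ x ∈ s, x ∈ window f S w := fun x hx =>
    window_mono f S (Finset.le_sup (f := W) (hs.mem_toFinset.2 hx)) (hW x)
  -- the set of elements of height zero of the window
  set A : Set G := {g | g ∈ window f S w ∧ f g = 1} with hA
  have hAfin : A.Finite := (hfin w).subset fun g hg => hg.1
  have h1 : (1 : G) ∈ A := ⟨⟨[], by simp, rfl, fun k => by simp⟩, map_one f⟩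
  have hmul : ∀ a ∈ A, ∀ b ∈ A, a * b ∈ A := fun a ha b hb =>
    ⟨window_mul f S ha.1 hb.1 ha.2, by rw [map_mul, ha.2, hb.2, one_mul]⟩
  have hinv : ∀ a ∈ A, a⁻¹ ∈ A := by
    intro a ha
    have hm : Set.MapsTo (fun x => a * x) A A := fun x hx => hmul a ha x hx
    have hi : Set.InjOn (fun x => a * x) A := fun x _ y _ h => mul_left_cancel h
    have hsurj := (hAfin.injOn_iff_bijOn_of_mapsTo hm).1 hi
    obtain ⟨x, hx, hx1⟩ := hsurj.surjOn h1
    have : x = a⁻¹ := (inv_eq_of_mul_eq_one_right hx1).symm
    rwa [← this]
  let H : Subgroup G :=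
    { carrier := A
      mul_mem' := fun {a b} ha hb => hmul a ha b hb
      one_mem' := h1
      inv_mem' := fun {a} ha => hinv a ha }
  have hle : Subgroup.closure s ≤ H := (Subgroup.closure_le H).2 fun x hx =>
    ⟨hsw x hx, hsk hx⟩
  exact hAfin.subset hle

end Pool.Agent.H34.MI
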