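import Pool.Agent.H34.MI.C
import Pool.Agent.H34.MI.LW

/-!
The group generated by the translation, the toggle and the flip at `(0, 0)`, as permutations of
`Y × ZMod 2`; its height; finiteness and size of its windows.
-/

namespace Pool.Agent.H34.MI

open Pool.Agent.H34.LS

/-- the space. -/
abbrev XX := YY × ZMod 2

/-- `1` at the point `a`, `0` elsewhere. -/
noncomputable def pt (a y : YY) : ZMod 2 := Set.indicator {a} (fun _ => 1) y

theorem pt_self (a : YY) : pt a a = 1 := Set.indicator_of_mem (Set.mem_singleton a) _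

theorem pt_ne {a y : YY} (h : y ≠ a) : pt a y = 0 :=
  Set.indicator_of_notMem (fun hm => h (Set.mem_singleton_iff.1 hm)) _

/-- translation. -/
def tX (n : ℤ) : Equiv.Perm XX where
  toFun x := ((x.1.1, x.1.2 + n), x.2)
  invFun x := ((x.1.1, x.1.2 - n), x.2)
  left_inv x := by ext <;> simp
  right_inv x := by ext <;> simp

/-- toggle. -/
def aX : Equiv.Perm XX where
  toFun x := (tg x.1, x.2)
  invFun x := (tg x.1, x.2)
  left_inv x := by
    ext1
    · exact tg.left_inv x.1
    · rfl
  right_inv x := by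
    ext1
    · exact tg.left_inv x.1
    · rfl

/-- flip at the origin. -/
noncomputable def bX : Equiv.Perm XX where
  toFun x := (x.1, x.2 + pt (0, 0) x.1)
  invFun x := (x.1, x.2 + pt (0, 0) x.1)
  left_inv x := by
    ext1
    · rfl
    · dsimp only
      rw [add_assoc, CharTwo.add_self_eq_zero, add_zero]
  right_inv x := by
    ext1
    · rfl
    · dsimp only
      rw [add_assoc, CharTwo.add_self_eq_zero, add_zero]

theorem tX_apply (n : ℤ) (x : XX) : tX n x = ((x.1.1, x.1.2 + n), x.2) := rfl
theorem tX_symm (n : ℤ) (x : XX) : (tX n).symm x = ((x.1.1, x.1.2 - n), x.2) := rfl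
theorem aX_apply (x : XX) : aX x = ((x.1.1 + ee x.1.2, x.1.2), x.2) := rfl
theorem bX_apply (x : XX) : bX x = (x.1, x.2 + pt (0, 0) x.1) := rfl

theorem tX_inv (n : ℤ) (x : XX) : (tX n)⁻¹ x = ((x.1.1, x.1.2 - n), x.2) := rfl
theorem aX_inv : (aX)⁻¹ = aX := rfl
theorem bX_inv : (bX)⁻¹ = bX := rfl

theorem tX_add (m n : ℤ) : tX (m + n) = tX m * tX n := by
  ext1 x
  rw [Equiv.Perm.mul_apply, tX_apply, tX_apply, tX_apply]
  dsimp only
  rw [add_assoc, add_comm m n]

/-- translations as a homomorphism. -/
def tHom : Multiplicative ℤ →* Equiv.Perm XX where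
  toFun n := tX (Multiplicative.toAdd n)
  map_one' := by
    ext1 x
    change tX 0 x = x
    rw [tX_apply, add_zero]
  map_mul' m n := tX_add _ _

theorem tX_zpow (n : ℤ) : tX 1 ^ n = tX n := by
  have h : tX 1 = tHom (Multiplicative.ofAdd 1) := rfl
  rw [h, ← map_zpow, ← ofAdd_zsmul]
  change tX (n • 1) = tX n
  rw [smul_eq_mul, mul_one]

/-- the group. -/
noncomputable def gamma : Subgroup (Equiv.Perm XX) := Subgroup.closure {tX 1, aX, bX}

/-- the group as a type. -/
abbrev GG := ↥gamma

noncomputable def gT : GG := ⟨tX 1, Subgroup.subset_closure (Or.inl rfl)⟩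
noncomputable def gA : GG := ⟨aX, Subgroup.subset_closure (Or.inr (Or.inl rfl))⟩
noncomputable def gB : GG := ⟨bX, Subgroup.subset_closure (Or.inr (Or.inr rfl))⟩

/-- the generators. -/
noncomputable def gS : Set GG := {gT, gA, gB}

theorem gS_finite : gS.Finite := by
  unfold gS
  exact (Set.finite_singleton _).insert _ |>.insert _

theorem gS_closure : Subgroup.closure gS = ⊤ := by
  have h := Subgroup.closure_closure_coe_preimage (k := ({tX 1, aX, bX} : Set (Equiv.Perm XX)))
  have h2 : gS = (((↑) : GG → Equiv.Perm XX) ⁻¹' {tX 1, aX, bX}) := by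
    ext g
    unfold gS
    simp only [Set.mem_insert_iff, Set.mem_singleton_iff, Set.mem_preimage]
    rw [← Subtype.coe_inj, ← Subtype.coe_inj, ← Subtype.coe_inj]
    rfl
  rw [h2]
  exact h

theorem gg_fg : Group.FG GG := Group.fg_iff.2 ⟨gS, gS_closure, gS_finite⟩

/-- the base point. -/
def x0 : XX := ((0, 0), 0)

/-- every element translates the height. -/
theorem height_spec {g : Equiv.Perm XX} (hg : g ∈ gamma) : ∀ x, (g x).1.2 = x.1.2 + (g x0).1.2 := by
  refine Subgroup.closure_induction (p := fun g _ => ∀ x, (g x).1.2 = x.1.2 + (g x0).1.2)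
    ?_ ?_ ?_ ?_ hg
  · intro g hg x
    rcases hg with rfl | rfl | hg
    · rw [tX_apply, tX_apply]
      simp [x0]
    · rw [aX_apply, aX_apply]
      simp [x0]
    · rw [Set.mem_singleton_iff.1 hg, bX_apply, bX_apply]
      simp [x0]
  · intro x
    simp [x0]
  · intro g h _ _ ihg ihh x
    rw [Equiv.Perm.mul_apply, Equiv.Perm.mul_apply, ihg, ihh, ihg (h x0)]
    ring
  · intro g _ ih x
    have h1 := ih (g⁻¹ x)
    have h2 := ih (g⁻¹ x0)
    have e1 : ∀ z, g (g⁻¹ z) = z := fun z => by rw [← Equiv.Perm.mul_apply, mul_inv_cancel]; rfl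
    rw [e1] at h1 h2
    have h3 : (x0 : XX).1.2 = 0 := rfl
    rw [h3] at h2
    linarith

/-- the height. -/
noncomputable def hgt : GG →* Multiplicative ℤ where
  toFun g := Multiplicative.ofAdd ((g : Equiv.Perm XX) x0).1.2
  map_one' := rfl
  map_mul' g h := by
    rw [← ofAdd_add]
    congr 1
    rw [Subgroup.coe_mul, Equiv.Perm.mul_apply, height_spec g.2, add_comm]

theorem hgt_apply (g : GG) : Multiplicative.toAdd (hgt g) = ((g : Equiv.Perm XX) x0).1.2 := rfl

theorem hgt_T : Multiplicative.toAdd (hgt gT) = 1 := by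
  rw [hgt_apply]
  change (tX 1 x0).1.2 = 1
  rw [tX_apply]
  simp [x0]

theorem hgt_A : Multiplicative.toAdd (hgt gA) = 0 := rfl

theorem hgt_B : Multiplicative.toAdd (hgt gB) = 0 := rfl

theorem hgt_surj : Function.Surjective hgt := by
  intro n
  refine ⟨gT ^ (Multiplicative.toAdd n), ?_⟩
  rw [map_zpow]
  apply Multiplicative.toAdd.injective
  rw [toAdd_zpow, hgt_T, smul_eq_mul, mul_one]

/-! ### Normal form -/

/-- the change of the first coordinate at height `m`. -/
def EE (D : Finset ℤ) (m : ℤ) : ℕ → ZMod 2 := ∑ d ∈ D, ee (m - d)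

/-- the maps. -/
noncomputable def PP (h : ℤ) (D : Finset ℤ) (R : Finset YY) (x : XX) : XX := by
  classical
  exact ((x.1.1 + EE D x.1.2, x.1.2 - h), x.2 + if x.1 ∈ R then 1 else 0)

theorem PP_def (h : ℤ) (D : Finset ℤ) (R : Finset YY) (x : XX) [Decidable (x.1 ∈ R)] :
    PP h D R x = ((x.1.1 + EE D x.1.2, x.1.2 - h), x.2 + if x.1 ∈ R then 1 else 0) := by
  unfold PP
  congr

theorem EE_toggle (D : Finset ℤ) (h : ℤ) : ∃ D' : Finset ℤ, D' ⊆ insert h D ∧
    ∀ m, EE D' m = EE D m + ee (m - h) := by
  by_cases hD : h ∈ D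
  · refine ⟨D.erase h, (Finset.erase_subset h D).trans (Finset.subset_insert h D), fun m => ?_⟩
    unfold EE
    rw [← Finset.add_sum_erase D (fun d => ee (m - d)) hD, add_right_comm, zmod2_add_self, zero_add]
  · refine ⟨insert h D, subset_rfl, fun m => ?_⟩
    unfold EE
    rw [Finset.sum_insert hD, add_comm]

theorem RR_toggle (R : Finset YY) (a : YY) : ∃ R' : Finset YY,
    (∀ y, y ∈ R' → y ∈ R ∨ y = a) ∧ ∀ h D x, PP h D R' x = ((PP h D R x).1, (PP h D R x).2 + pt a x.1) := by
  classical
  by_cases ha : a ∈ R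
  · refine ⟨R.erase a, fun y hy => Or.inl (Finset.mem_of_mem_erase hy), fun h D x => ?_⟩
    rw [PP_def, PP_def]
    by_cases hx : x.1 = a
    · rw [hx, pt_self, if_neg (Finset.notMem_erase a R), if_pos ha]
      simp only [add_zero, add_assoc, CharTwo.add_self_eq_zero]
    · rw [pt_ne hx, add_zero]
      congr 2
      simp only [Finset.mem_erase, ne_eq, hx, not_false_eq_true, true_and]
  · refine ⟨insert a R, fun y hy => (Finset.mem_insert.1 hy).symm, fun h D x => ?_⟩
    rw [PP_def, PP_def]
    by_cases hx : x.1 = a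
    · rw [hx, pt_self, if_pos (Finset.mem_insert_self a R), if_neg ha]
      simp only [add_zero]
    · rw [pt_ne hx, add_zero]
      congr 2
      simp only [Finset.mem_insert, hx, false_or]

/-- the coordinates that can be changed. -/
def LL (w : ℕ) : ℕ := Nat.log 2 (2 * w) + 1

/-- the box. -/
noncomputable def box (w : ℕ) : Finset YY := by
  classical
  exact ((Finset.range (LL w)).powerset ×ˢ Finset.Icc (-(w : ℤ)) w).image fun p => (ind p.1, p.2)

theorem EE_ind {w : ℕ} {D : Finset ℤ} (hD : D ⊆ Finset.Icc (-(w : ℤ)) w) {h : ℤ} (hh : |h| ≤ (w : ℤ)) :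
    (EE D h, h) ∈ box w := by
  classical
  unfold box
  rw [Finset.mem_image]
  refine ⟨((Finset.range (LL w)).filter fun i => EE D h i ≠ 0, h), ?_, ?_⟩
  · rw [Finset.mem_product, Finset.mem_powerset, Finset.mem_Icc]
    exact ⟨Finset.filter_subset _ _, abs_le.1 hh⟩
  · dsimp only
    congr 1
    funext i
    unfold ind
    have z2 : ∀ a : ZMod 2, a = 0 ∨ a = 1 := by decide
    have hout : ¬ i < LL w → EE D h i = 0 := by
      intro hi
      unfold EE
      rw [Finset.sum_apply]
      refine Finset.sum_eq_zero fun d hd => ?_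
      unfold ee
      rw [if_neg]
      rintro ⟨h1, h2⟩
      have hd' := Finset.mem_Icc.1 (hD hd)
      have hh' := abs_le.1 hh
      have h3 : (h - d).toNat ≤ 2 * w := by omega
      have h4 := Nat.log_mono_right (b := 2) h3
      unfold LL at hi
      omega
    by_cases hi : i < LL w
    · rcases z2 (EE D h i) with h0 | h0
      · rw [h0, if_neg]
        simp [h0]
      · rw [h0, if_pos]
        simp [hi, h0]
    · rw [hout hi, if_neg]
      simp [hi]

/-- the normal form of the elements of a window. -/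
theorem window_form (w : ℕ) : ∀ l : List GG, (∀ x ∈ l, x ∈ gS ∨ x⁻¹ ∈ gS) →
    (∀ k : ℕ, |Multiplicative.toAdd (hgt ((l.take k).prod))| ≤ (w : ℤ)) →
    ∃ (D : Finset ℤ) (R : Finset YY), D ⊆ Finset.Icc (-(w : ℤ)) w ∧ R ⊆ box w ∧
      ∀ x, ((l.prod : GG) : Equiv.Perm XX)⁻¹ x = PP (Multiplicative.toAdd (hgt l.prod)) D R x := by
  classical
  intro l
  induction l using List.reverseRecOn with
  | nil =>
    intro _ _
    refine ⟨∅, ∅, Finset.empty_subset _, Finset.empty_subset _, fun x => ?_⟩
    rw [PP_def, List.prod_nil, map_one, toAdd_one]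
    simp [EE]
  | append_singleton l x ih =>
    intro h1 h2
    have hl2 : ∀ k : ℕ, |Multiplicative.toAdd (hgt ((l.take k).prod))| ≤ (w : ℤ) := by
      intro k
      rcases le_total k l.length with hk | hk
      · have := h2 k
        rw [List.take_append_of_le_length hk] at this
        exact this
      · have := h2 l.length
        rw [List.take_append_of_le_length le_rfl, List.take_length] at this
        rw [List.take_of_length_le hk]
        exact this
    have hpos := hl2 l.length
    rw [List.take_length] at hpos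
    obtain ⟨D, R, hD, hR, hx⟩ := ih (fun y hy => h1 y (List.mem_append_left _ hy)) hl2
    set h := Multiplicative.toAdd (hgt l.prod) with hh
    rw [List.prod_append, List.prod_singleton]
    have hinv : ∀ z, (((l.prod * x : GG) : Equiv.Perm XX))⁻¹ z = ((x : GG) : Equiv.Perm XX)⁻¹ (PP h D R z) := by
      intro z
      rw [Subgroup.coe_mul, mul_inv_rev, Equiv.Perm.mul_apply, hx]
    have hx' : x = gT ∨ x = gT⁻¹ ∨ x = gA ∨ x = gB := by
      have ia : gA⁻¹ = gA := Subtype.ext aX_inv
      have ib : gB⁻¹ = gB := Subtype.ext bX_inv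
      rcases h1 x (List.mem_append_right _ (List.mem_singleton_self x)) with h3 | h3
      · rcases h3 with h3 | h3 | h3
        · exact Or.inl h3
        · exact Or.inr (Or.inr (Or.inl h3))
        · exact Or.inr (Or.inr (Or.inr (Set.mem_singleton_iff.1 h3)))
      · rcases h3 with h3 | h3 | h3
        · exact Or.inr (Or.inl (by rw [← h3, inv_inv]))
        · exact Or.inr (Or.inr (Or.inl (by rw [← ia, ← h3, inv_inv])))
        · refine Or.inr (Or.inr (Or.inr ?_))
          rw [← ib, ← Set.mem_singleton_iff.1 h3, inv_inv]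
    rcases hx' with rfl | rfl | rfl | rfl
    · refine ⟨D, R, hD, hR, fun z => ?_⟩
      rw [hinv, map_mul, toAdd_mul, hgt_T, ← hh]
      change (tX 1)⁻¹ (PP h D R z) = _
      rw [tX_inv, PP_def, PP_def]
      dsimp only
      rw [sub_sub]
    · refine ⟨D, R, hD, hR, fun z => ?_⟩
      rw [hinv, map_mul, toAdd_mul, map_inv, toAdd_inv, hgt_T, ← hh]
      change ((tX 1)⁻¹)⁻¹ (PP h D R z) = _
      rw [inv_inv, tX_apply, PP_def, PP_def]
      dsimp only
      congr 2
      ring
    · obtain ⟨D', hD', hD2⟩ := EE_toggle D h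
      refine ⟨D', R, ?_, hR, fun z => ?_⟩
      · refine hD'.trans (Finset.insert_subset ?_ hD)
        exact Finset.mem_Icc.2 (abs_le.1 hpos)
      · rw [hinv, map_mul, toAdd_mul, hgt_A, add_zero, ← hh]
        change (aX)⁻¹ (PP h D R z) = _
        rw [aX_inv, aX_apply, PP_def, PP_def]
        dsimp only
        rw [hD2, add_assoc]
    · obtain ⟨R', hR', hR2⟩ := RR_toggle R (EE D h, h)
      refine ⟨D, R', hD, ?_, fun z => ?_⟩
      · intro y hy
        rcases hR' y hy with h3 | h3
        · exact hR h3
        · rw [h3]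
          exact EE_ind hD hpos
      · rw [hinv, map_mul, toAdd_mul, hgt_B, add_zero, ← hh, hR2]
        change (bX)⁻¹ (PP h D R z) = _
        rw [bX_inv, bX_apply]
        congr 2
        by_cases hz : z.1 = (EE D h, h)
        · have h3 : (PP h D R z).1 = (0, 0) := by
            rw [PP_def, hz]
            dsimp only
            rw [zmod2_add_self, sub_self]
          rw [h3, hz, pt_self, pt_self]
        · have h3 : (PP h D R z).1 ≠ (0, 0) := by
            rw [PP_def]
            dsimp only
            intro h4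
            rw [Prod.mk.injEq] at h4
            apply hz
            have h5 : z.1.2 = h := by linarith [h4.2]
            have h6 : z.1.1 = EE D h := by
              have h7 := h4.1
              rw [h5] at h7
              calc z.1.1 = z.1.1 + (EE D h + EE D h) := by rw [zmod2_add_self, add_zero]
                _ = (z.1.1 + EE D h) + EE D h := by rw [add_assoc]
                _ = EE D h := by rw [h7, zero_add]
            exact Prod.ext h6 h5
          rw [pt_ne h3, pt_ne hz]

end Pool.Agent.H34.MI
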