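import Pool.Agent.H34.MI.A

/-!
Finiteness and size of the windows.
-/

namespace Pool.Agent.H34.MI

open Pool.Agent.H34.LS

/-- the codes. -/
noncomputable def codes (w : ℕ) : Finset (ℤ × Finset ℤ × Finset YY) :=
  Finset.Icc (-(w : ℤ)) w ×ˢ (Finset.Icc (-(w : ℤ)) w).powerset ×ˢ (box w).powerset

theorem box_card (w : ℕ) : (box w).card ≤ 2 ^ (LL w) * (2 * w + 1) := by
  classical
  unfold box
  refine Finset.card_image_le.trans ?_
  have h : (Finset.Icc (-(w : ℤ)) w).card = 2 * w + 1 := by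
    rw [Int.card_Icc]
    omega
  rw [Finset.card_product, Finset.card_powerset, Finset.card_range, h]

theorem codes_card (w : ℕ) :
    (codes w).card = (2 * w + 1) * (2 ^ (2 * w + 1) * 2 ^ (box w).card) := by
  have h : (Finset.Icc (-(w : ℤ)) w).card = 2 * w + 1 := by
    rw [Int.card_Icc]
    omega
  unfold codes
  rw [Finset.card_product, Finset.card_product, Finset.card_powerset, Finset.card_powerset, h]

theorem exists_code (w : ℕ) {g : GG} (hg : g ∈ window hgt gS w) :
    ∃ p ∈ codes w, ∀ x, ((g : Equiv.Perm XX))⁻¹ x = PP p.1 p.2.1 p.2.2 x := by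
  obtain ⟨l, h1, rfl, h2⟩ := hg
  obtain ⟨D, R, hD, hR, hx⟩ := window_form w l h1 h2
  have h3 := h2 l.length
  rw [List.take_length] at h3
  refine ⟨(Multiplicative.toAdd (hgt l.prod), D, R), ?_, hx⟩
  unfold codes
  rw [Finset.mem_product, Finset.mem_product, Finset.mem_powerset, Finset.mem_powerset,
    Finset.mem_Icc]
  exact ⟨abs_le.1 h3, hD, hR⟩

open Classical in
/-- the code of an element. -/
noncomputable def code (w : ℕ) (g : GG) : ℤ × Finset ℤ × Finset YY :=
  if h : g ∈ window hgt gS w then (exists_code w h).choose else (0, ∅, ∅)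

theorem code_mem (w : ℕ) {g : GG} (hg : g ∈ window hgt gS w) : code w g ∈ codes w := by
  unfold code
  rw [dif_pos hg]
  exact (exists_code w hg).choose_spec.1

theorem code_spec (w : ℕ) {g : GG} (hg : g ∈ window hgt gS w) (x : XX) :
    ((g : Equiv.Perm XX))⁻¹ x = PP (code w g).1 (code w g).2.1 (code w g).2.2 x := by
  unfold code
  rw [dif_pos hg]
  exact (exists_code w hg).choose_spec.2 x

theorem code_inj (w : ℕ) : Set.InjOn (code w) (window hgt gS w) := by
  intro g hg h hh e
  have h1 : (g : Equiv.Perm XX)⁻¹ = (h : Equiv.Perm XX)⁻¹ := by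
    ext1 x
    rw [code_spec w hg, code_spec w hh, e]
  exact Subtype.ext (inv_injective h1)

theorem window_finite (w : ℕ) : (window hgt gS w).Finite := by
  apply Set.Finite.of_finite_image _ (code_inj w)
  apply (codes w).finite_toSet.subset
  rintro _ ⟨g, hg, rfl⟩
  exact code_mem w hg

theorem window_ncard (w : ℕ) : (window hgt gS w).ncard ≤ (codes w).card := by
  rw [← Set.ncard_coe_finset (codes w)]
  exact Set.ncard_le_ncard_of_injOn (code w) (fun g hg => code_mem w hg) (code_inj w)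
    (codes w).finite_toSet

theorem gg_locFinByZ : LocFinByZ GG :=
  locFinByZ_of_windows hgt hgt_surj gS gS_closure window_finite

theorem window_log (w : ℕ) (hw : 1 ≤ w) :
    Real.log ((window hgt gS w).ncard : ℝ) ≤ 18 * (w : ℝ) ^ 2 := by
  have h1 : 2 ^ (LL w) ≤ 4 * w := by
    unfold LL
    have h2 : 2 ^ Nat.log 2 (2 * w) ≤ 2 * w := Nat.pow_log_le_self 2 (by omega)
    rw [pow_succ]
    omega
  have h2 : (box w).card ≤ 4 * w * (2 * w + 1) :=
    (box_card w).trans (Nat.mul_le_mul_right _ h1)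
  have h3 : (codes w).card ≤ 2 ^ (18 * w ^ 2) := by
    rw [codes_card]
    have h4 : 2 * w + 1 ≤ 2 ^ (2 * w + 1) := Nat.lt_two_pow_self.le
    have h5 : (2 : ℕ) ^ (box w).card ≤ 2 ^ (4 * w * (2 * w + 1)) :=
      Nat.pow_le_pow_right (by norm_num) h2
    calc (2 * w + 1) * (2 ^ (2 * w + 1) * 2 ^ (box w).card)
        ≤ 2 ^ (2 * w + 1) * (2 ^ (2 * w + 1) * 2 ^ (4 * w * (2 * w + 1))) := by gcongr
      _ = 2 ^ ((2 * w + 1) + ((2 * w + 1) + 4 * w * (2 * w + 1))) := by rw [← pow_add, ← pow_add]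
      _ ≤ 2 ^ (18 * w ^ 2) := by
        apply Nat.pow_le_pow_right (by norm_num)
        nlinarith
  have h4 : ((window hgt gS w).ncard : ℝ) ≤ 2 ^ (18 * w ^ 2) := by
    exact_mod_cast (window_ncard w).trans h3
  have h5 : (1 : ℝ) ≤ ((window hgt gS w).ncard : ℝ) := by
    have hne : (window hgt gS w).Nonempty := ⟨1, [], by simp, rfl, fun k => by simp⟩
    exact_mod_cast (Set.ncard_pos (window_finite w)).2 hne
  calc Real.log ((window hgt gS w).ncard : ℝ) ≤ Real.log (2 ^ (18 * w ^ 2)) :=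
        Real.log_le_log (by linarith) h4
    _ = ((18 * w ^ 2 : ℕ) : ℝ) * Real.log 2 := Real.log_pow _ _
    _ ≤ ((18 * w ^ 2 : ℕ) : ℝ) * 1 := by
        apply mul_le_mul_of_nonneg_left _ (Nat.cast_nonneg _)
        have := Real.log_two_lt_d9
        linarith
    _ = 18 * (w : ℝ) ^ 2 := by push_cast; ring

end Pool.Agent.H34.MI
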