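import Mathlib

/-!
Weights for the long jumps: `RR k = (k+6)^4 / (2592 * 4^k)`, `WW k = RR k - RR (k+1)`.
-/

namespace Pool.Agent.H34.MI

open Filter Topology

/-- the tail weights. -/
noncomputable def RR (k : ℕ) : ℝ := ((k : ℝ) + 6) ^ 4 / (2592 * 4 ^ k)

/-- the weight of the jumps of length `2 ^ k`. -/
noncomputable def WW (k : ℕ) : ℝ := RR k - RR (k + 1)

theorem RR_zero : RR 0 = 1 / 2 := by
  unfold RR
  norm_num

theorem RR_pos (k : ℕ) : 0 < RR k := by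
  unfold RR
  positivity

theorem RR_mul (k : ℕ) : 1 / 2 ≤ 4 ^ k * RR k := by
  unfold RR
  have h : (4 : ℝ) ^ k * (((k : ℝ) + 6) ^ 4 / (2592 * 4 ^ k)) = ((k : ℝ) + 6) ^ 4 / 2592 := by
    field_simp
  rw [h]
  have hk : (0 : ℝ) ≤ k := Nat.cast_nonneg k
  have h6 : (6 : ℝ) ^ 4 ≤ ((k : ℝ) + 6) ^ 4 := by
    apply pow_le_pow_left₀ (by norm_num)
    linarith
  norm_num at h6
  linarith

theorem WW_lower (k : ℕ) : ((k : ℝ) + 7) ^ 4 / (2592 * 4 ^ (k + 1)) ≤ WW k := by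
  have hk : (0 : ℝ) ≤ k := Nat.cast_nonneg k
  have h : WW k = (4 * ((k : ℝ) + 6) ^ 4 - ((k : ℝ) + 7) ^ 4) / (2592 * 4 ^ (k + 1)) := by
    unfold WW RR
    rw [pow_succ]
    push_cast
    field_simp
    ring
  rw [h]
  apply div_le_div_of_nonneg_right _ (by positivity)
  have h2 : (0 : ℝ) ≤ (k : ℝ) ^ 2 := by positivity
  have h3 : (0 : ℝ) ≤ (k : ℝ) ^ 3 := by positivity
  have h4 : (0 : ℝ) ≤ (k : ℝ) ^ 4 := by positivity
  nlinarith

theorem WW_pos (k : ℕ) : 0 < WW k :=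
  lt_of_lt_of_le (by positivity) (WW_lower k)

theorem WW_upper (k : ℕ) : WW k ≤ RR k := by
  have := RR_pos (k + 1)
  unfold WW
  linarith

theorem WW_sum (K : ℕ) : ∑ k ∈ Finset.range K, WW k = 1 / 2 - RR K := by
  unfold WW
  rw [Finset.sum_range_sub', RR_zero]

/-- moments: `∑ (k+6)^4 r^k` converges for `0 < r < 1`. -/
theorem summable_shift {r : ℝ} (h0 : 0 < r) (h1 : r < 1) :
    Summable fun k : ℕ => ((k : ℝ) + 6) ^ 4 * r ^ k := by
  have h : Summable fun k : ℕ => ((k : ℝ)) ^ 4 * r ^ k :=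
    summable_pow_mul_geometric_of_norm_lt_one 4 (by rwa [Real.norm_of_nonneg h0.le])
  have h2 := (summable_nat_add_iff 6).2 h
  have h3 := h2.mul_left (r ^ 6)⁻¹
  refine h3.congr fun k => ?_
  rw [pow_add]
  push_cast
  field_simp

theorem RR_summable : Summable RR := by
  have h := (summable_shift (r := 1 / 4) (by norm_num) (by norm_num)).mul_left (1 / 2592)
  refine h.congr fun k => ?_
  unfold RR
  rw [one_div_pow]
  field_simp

theorem WW_hasSum : HasSum WW (1 / 2) := by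
  rw [hasSum_iff_tendsto_nat_of_nonneg fun k => (WW_pos k).le]
  have h := RR_summable.tendsto_atTop_zero
  have h2 : Tendsto (fun K => 1 / 2 - RR K) atTop (𝓝 (1 / 2 - 0)) := tendsto_const_nhds.sub h
  rw [sub_zero] at h2
  refine h2.congr fun K => ?_
  rw [WW_sum]

/-- `∑_{k<K} 144/(k+7)^2 ≤ 24`. -/
theorem sq_sum_bound (K : ℕ) : ∑ k ∈ Finset.range K, (144 : ℝ) / ((k : ℝ) + 7) ^ 2 ≤
    24 - 144 / ((K : ℝ) + 6) := by
  induction K with
  | zero => norm_num
  | succ K ih =>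
    rw [Finset.sum_range_succ]
    have hK : (0 : ℝ) ≤ K := Nat.cast_nonneg K
    have h : (144 : ℝ) / ((K : ℝ) + 7) ^ 2 ≤ 144 / ((K : ℝ) + 6) - 144 / ((K : ℝ) + 7) := by
      rw [div_sub_div _ _ (by positivity) (by positivity)]
      rw [div_le_div_iff₀ (by positivity) (by positivity)]
      nlinarith [sq_nonneg ((K : ℝ) + 7)]
    push_cast
    have e : (K : ℝ) + 1 + 6 = K + 7 := by ring
    rw [e]
    linarith

theorem geom_bound (K : ℕ) : ∑ k ∈ Finset.range K, (2 : ℝ) * (1 / 2) ^ k = 4 - 4 * (1 / 2) ^ K := by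
  induction K with
  | zero => norm_num
  | succ K ih =>
    rw [Finset.sum_range_succ, ih, pow_succ]
    ring

end Pool.Agent.H34.MI
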