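import Pool.Agent.H34.MI.E
import Pool.Agent.H34.MI.W

/-!
The graph `Y = (ℕ → ZMod 2) × ℤ`: translations of the height, and the toggle: at height `m ≥ 1` the
coordinate with number `log₂ m` is changed. Capacity estimate by averages over the sets
`B_k = {(ζ, n) : ζ supported in [0, k), 0 ≤ n < 2^k}`.
-/

namespace Pool.Agent.H34.MI

/-- the graph. -/
abbrev YY := (ℕ → ZMod 2) × ℤ

/-- the coordinate that is toggled at height `m`. -/
def ee (m : ℤ) : ℕ → ZMod 2 := fun i => if 1 ≤ m ∧ Nat.log 2 m.toNat = i then 1 else 0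

/-- translation of the height. -/
def sh (n : ℤ) : Equiv.Perm YY where
  toFun y := (y.1, y.2 + n)
  invFun y := (y.1, y.2 - n)
  left_inv y := by ext <;> simp
  right_inv y := by ext <;> simp

theorem zmod2_add_self (f : ℕ → ZMod 2) : f + f = 0 := by
  funext i
  exact CharTwo.add_self_eq_zero (f i)

/-- the toggle. -/
def tg : Equiv.Perm YY where
  toFun y := (y.1 + ee y.2, y.2)
  invFun y := (y.1 + ee y.2, y.2)
  left_inv y := by
    ext1
    · simp only [add_assoc, zmod2_add_self, add_zero]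
    · rfl
  right_inv y := by
    ext1
    · simp only [add_assoc, zmod2_add_self, add_zero]
    · rfl

theorem sh_apply (n : ℤ) (y : YY) : sh n y = (y.1, y.2 + n) := rfl
theorem sh_symm_apply (n : ℤ) (y : YY) : (sh n).symm y = (y.1, y.2 - n) := rfl
theorem tg_apply (y : YY) : tg y = (y.1 + ee y.2, y.2) := rfl
theorem tg_symm_apply (y : YY) : tg.symm y = (y.1 + ee y.2, y.2) := rfl

/-- indicator of a finite set of coordinates. -/
def ind (s : Finset ℕ) : ℕ → ZMod 2 := fun i => if i ∈ s then 1 else 0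

theorem ind_inj : Function.Injective ind := by
  intro s t h
  ext i
  have h1 := congrFun h i
  unfold ind at h1
  by_cases hs : i ∈ s <;> by_cases ht : i ∈ t <;> simp [hs, ht] at h1 ⊢

theorem ind_empty : ind ∅ = 0 := by
  funext i
  unfold ind
  simp

theorem ind_insert {k : ℕ} {s : Finset ℕ} (hk : k ∉ s) {m : ℤ} (h1 : (2 : ℤ) ^ k ≤ m)
    (h2 : m < 2 ^ (k + 1)) : ind (insert k s) = ind s + ee m := by
  have hm : 1 ≤ m := le_trans (one_le_pow₀ (by norm_num)) h1
  have hlog : Nat.log 2 m.toNat = k := by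
    rw [Nat.log_eq_iff (Or.inr ⟨by norm_num, by omega⟩)]
    constructor
    · zify
      rw [Int.toNat_of_nonneg (by omega)]
      exact h1
    · zify
      rw [Int.toNat_of_nonneg (by omega)]
      exact h2
  funext i
  unfold ind ee
  rw [Pi.add_apply, hlog]
  by_cases hi : i = k
  · subst hi
    simp [hk, hm]
  · have hi' : k ≠ i := fun h => hi h.symm
    simp [hi, hi', hm]

/-- sum over `B_k`. -/
noncomputable def SS (k : ℕ) (f : YY → ℝ) : ℝ :=
  ∑ s ∈ (Finset.range k).powerset, ∑ n ∈ Finset.range (2 ^ k), f (ind s, (n : ℤ))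

theorem SS_zero (f : YY → ℝ) : SS 0 f = f (0, 0) := by
  unfold SS
  simp [ind_empty]

theorem SS_sub (k : ℕ) (f g : YY → ℝ) : SS k (fun y => f y - g y) = SS k f - SS k g := by
  unfold SS
  simp only [Finset.sum_sub_distrib]

theorem SS_succ (k : ℕ) (f : YY → ℝ) :
    SS (k + 1) f = SS k f + SS k (fun y => f (sh (2 ^ k) y)) +
      (SS k (fun y => f ((sh (2 ^ k)).symm (tg (sh (2 ^ k) y)))) +
        SS k (fun y => f (tg (sh (2 ^ k) y)))) := by
  unfold SS
  have hp : (2 : ℕ) ^ (k + 1) = 2 ^ k + 2 ^ k := by ring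
  have r1 : ∑ s ∈ (Finset.range k).powerset, ∑ n ∈ Finset.range (2 ^ k + 2 ^ k), f (ind s, (n : ℤ)) =
      ∑ s ∈ (Finset.range k).powerset, ∑ n ∈ Finset.range (2 ^ k), f (ind s, (n : ℤ)) +
      ∑ s ∈ (Finset.range k).powerset, ∑ n ∈ Finset.range (2 ^ k), f (sh (2 ^ k) (ind s, (n : ℤ))) := by
    rw [← Finset.sum_add_distrib]
    refine Finset.sum_congr rfl fun s _ => ?_
    rw [Finset.sum_range_add]
    congr 1
    refine Finset.sum_congr rfl fun n _ => ?_
    rw [sh_apply]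
    congr 2
    push_cast
    ring
  have r2 : ∑ s ∈ (Finset.range k).powerset, ∑ n ∈ Finset.range (2 ^ k + 2 ^ k),
        f (ind (insert k s), (n : ℤ)) =
      ∑ s ∈ (Finset.range k).powerset, ∑ n ∈ Finset.range (2 ^ k),
        f ((sh (2 ^ k)).symm (tg (sh (2 ^ k) (ind s, (n : ℤ))))) +
      ∑ s ∈ (Finset.range k).powerset, ∑ n ∈ Finset.range (2 ^ k),
        f (tg (sh (2 ^ k) (ind s, (n : ℤ)))) := by
    rw [← Finset.sum_add_distrib]
    refine Finset.sum_congr rfl fun s hs => ?_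
    have hk : k ∉ s := fun h => Finset.notMem_range_self (Finset.mem_powerset.1 hs h)
    rw [Finset.sum_range_add]
    congr 1
    · refine Finset.sum_congr rfl fun n hn => ?_
      have hn' : (n : ℤ) < 2 ^ k := by exact_mod_cast Finset.mem_range.1 hn
      have hn0 : (0 : ℤ) ≤ n := Int.natCast_nonneg n
      rw [sh_apply, tg_apply, sh_symm_apply]
      dsimp only
      rw [ind_insert hk (m := (n : ℤ) + 2 ^ k) (by linarith) (by rw [pow_succ]; linarith)]
      congr 2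
      ring
    · refine Finset.sum_congr rfl fun n hn => ?_
      have hn' : (n : ℤ) < 2 ^ k := by exact_mod_cast Finset.mem_range.1 hn
      have hn0 : (0 : ℤ) ≤ n := Int.natCast_nonneg n
      rw [sh_apply, tg_apply]
      dsimp only
      rw [ind_insert hk (m := (n : ℤ) + 2 ^ k) (by linarith) (by rw [pow_succ]; linarith)]
      congr 2
      push_cast
      ring
  rw [Finset.range_add_one, Finset.sum_powerset_insert (Finset.notMem_range_self), hp, r1, r2]

/-- Cauchy-Schwarz. -/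
theorem SS_sq (k : ℕ) {g : YY → ℝ} (hg : (Function.support g).Finite) :
    (SS k g) ^ 2 ≤ 4 ^ k * nsq g := by
  set I : Finset (Finset ℕ × ℕ) := (Finset.range k).powerset ×ˢ Finset.range (2 ^ k) with hI
  have h1 : SS k g = ∑ p ∈ I, g (ind p.1, (p.2 : ℤ)) := by
    unfold SS
    rw [hI, Finset.sum_product]
  have hcard : (I.card : ℝ) = 4 ^ k := by
    rw [hI, Finset.card_product, Finset.card_powerset, Finset.card_range, Finset.card_range]
    push_cast
    rw [← mul_pow]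
    norm_num
  have hinj : Function.Injective fun p : Finset ℕ × ℕ => ((ind p.1, (p.2 : ℤ)) : YY) := by
    rintro ⟨s, n⟩ ⟨t, m⟩ h
    simp only [Prod.mk.injEq, Nat.cast_inj] at h
    rw [ind_inj h.1, h.2]
  rw [h1]
  refine (sq_sum_le_card_mul_sum_sq (s := I) (f := fun p => g (ind p.1, (p.2 : ℤ)))).trans ?_
  rw [hcard]
  refine mul_le_mul_of_nonneg_left ?_ (by positivity)
  have h2 : ∑ p ∈ I, g (ind p.1, (p.2 : ℤ)) ^ 2 =
      ∑ y ∈ I.map ⟨_, hinj⟩, g y ^ 2 := by
    rw [Finset.sum_map]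
    rfl
  rw [h2]
  exact (summable_sq hg).sum_le_tsum _ fun y _ => sq_nonneg _

theorem SS_abs (k : ℕ) {g : YY → ℝ} (hg : (Function.support g).Finite) {x : ℝ} (hx : 0 ≤ x)
    (h : nsq g ≤ x ^ 2) : |SS k g| ≤ 2 ^ k * x := by
  refine abs_le_of_sq_le_sq ?_ (by positivity)
  refine (SS_sq k hg).trans ?_
  rw [mul_pow]
  have h4 : ((2 : ℝ) ^ k) ^ 2 = 4 ^ k := by
    rw [← pow_mul, mul_comm, pow_mul]
    norm_num
  rw [h4]
  exact mul_le_mul_of_nonneg_left h (by positivity)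

theorem nsq_comp (σ : Equiv.Perm YY) (g : YY → ℝ) : nsq (fun y => g (σ y)) = nsq g :=
  σ.tsum_eq fun y => g y ^ 2

theorem gr_symm (σ : Equiv.Perm YY) (f : YY → ℝ) : gr σ.symm f = gr σ f := by
  unfold gr
  rw [← σ.tsum_eq fun y => (f (σ.symm y) - f y) ^ 2]
  refine tsum_congr fun y => ?_
  rw [Equiv.symm_apply_apply]
  ring

/-- one step of the averages. -/
theorem SS_step (k : ℕ) {f : YY → ℝ} (hf : (Function.support f).Finite) {x z : ℝ} (hx : 0 ≤ x)
    (hz : 0 ≤ z) (h1 : gr (sh (2 ^ k)) f ≤ x ^ 2) (h2 : gr tg f ≤ z ^ 2) :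
    |SS (k + 1) f - 4 * SS k f| ≤ 2 ^ k * (4 * x + 2 * z) := by
  set τ := sh (2 ^ k) with hτ
  have d1 : |SS k (fun y => f (τ y)) - SS k f| ≤ 2 ^ k * x := by
    rw [← SS_sub]
    exact SS_abs k (support_grad hf τ) hx h1
  have d2 : |SS k (fun y => f (tg (τ y))) - SS k (fun y => f (τ y))| ≤ 2 ^ k * z := by
    rw [← SS_sub]
    refine SS_abs k (g := fun y => (fun y => f (tg y) - f y) (τ y))
      (support_comp (support_grad hf tg) τ) hz ?_
    exact (nsq_comp τ (fun y => f (tg y) - f y)).trans_le h2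
  have d3 : |SS k (fun y => f (τ.symm (tg (τ y)))) - SS k (fun y => f (tg (τ y)))| ≤ 2 ^ k * x := by
    rw [← SS_sub]
    refine SS_abs k (g := fun y => (fun y => f (τ.symm y) - f y) ((τ.trans tg) y))
      (support_comp (support_grad hf τ.symm) (τ.trans tg)) hx ?_
    exact (nsq_comp (τ.trans tg) (fun y => f (τ.symm y) - f y)).trans_le
      ((gr_symm τ f).trans_le h1)
  rw [SS_succ]
  rw [abs_le] at d1 d2 d3 ⊢
  have h5 : (2 : ℝ) ^ k * (4 * x + 2 * z) = 4 * (2 ^ k * x) + 2 * (2 ^ k * z) := by ring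
  rw [h5]
  constructor <;> linarith [d1.1, d1.2, d2.1, d2.2, d3.1, d3.2]

/-- the permutations of the chain. -/
def sg : ℕ → Equiv.Perm YY
  | 0 => tg
  | 1 => sh 1
  | k + 2 => sh (2 ^ k)

/-- the weights of the chain. -/
noncomputable def cc : ℕ → ℝ
  | 0 => 1 / 8
  | 1 => 1 / 4
  | k + 2 => WW k

theorem cc_nonneg (k : ℕ) : 0 ≤ cc k := by
  rcases k with _ | _ | k
  · norm_num [cc]
  · norm_num [cc]
  · exact (WW_pos k).le

theorem cc_hasSum : HasSum cc (1 - 1 / 8) := by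
  rw [← hasSum_nat_add_iff' 2]
  have h : (1 : ℝ) - 1 / 8 - ∑ i ∈ Finset.range 2, cc i = 1 / 2 := by
    rw [Finset.sum_range_succ, Finset.sum_range_succ, Finset.sum_range_zero]
    norm_num [cc]
  rw [h]
  exact WW_hasSum

theorem cap (K : ℕ) {f : YY → ℝ} (hf : (Function.support f).Finite) :
    f (0, 0) ^ 2 ≤ 900 * DD (1 / 8) cc sg (K + 2) f := by
  have hsum : ∀ g : ℕ → ℝ, ∑ k ∈ Finset.range (K + 2), g k =
      g 0 + g 1 + ∑ k ∈ Finset.range K, g (k + 2) := by
    intro g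
    rw [Finset.sum_range_succ', Finset.sum_range_succ']
    ring
  set D := DD (1 / 8) cc sg (K + 2) f with hD
  have hE : D = RR K * nsq f + (gr tg f / 16 + gr (sh 1) f / 8 +
      ∑ k ∈ Finset.range K, WW k / 2 * gr (sh (2 ^ k)) f) := by
    rw [hD, energy _ _ _ _ hf, hsum, hsum]
    have h1 : ∑ k ∈ Finset.range K, cc (k + 2) = 1 / 2 - RR K := WW_sum K
    rw [h1]
    simp only [cc, sg]
    ring
  have hn := nsq_nonneg f
  have hg0 := gr_nonneg tg f
  have hg1 := gr_nonneg (sh 1) f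
  have hgk : ∀ k, 0 ≤ WW k / 2 * gr (sh (2 ^ k)) f := fun k =>
    mul_nonneg (by have := WW_pos k; linarith) (gr_nonneg _ _)
  have hS : 0 ≤ ∑ k ∈ Finset.range K, WW k / 2 * gr (sh (2 ^ k)) f :=
    Finset.sum_nonneg fun k _ => hgk k
  have hRn : 0 ≤ RR K * nsq f := mul_nonneg (RR_pos K).le hn
  have hD0 : 0 ≤ D := by rw [hE]; positivity
  set x := Real.sqrt D with hx
  have hx0 : 0 ≤ x := Real.sqrt_nonneg D
  have hxx : x ^ 2 = D := Real.sq_sqrt hD0
  -- the toggle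
  have ht : gr tg f ≤ (4 * x) ^ 2 := by
    rw [mul_pow, hxx, hE]
    linarith
  -- the jumps
  have hj : ∀ k, k < K → gr (sh (2 ^ k)) f ≤ (144 * 2 ^ k / ((k : ℝ) + 7) ^ 2 * x) ^ 2 := by
    intro k hk
    have h1 : WW k / 2 * gr (sh (2 ^ k)) f ≤ D := by
      have h2 := Finset.single_le_sum (f := fun k => WW k / 2 * gr (sh (2 ^ k)) f)
        (fun k _ => hgk k) (Finset.mem_range.2 hk)
      rw [hE]
      linarith
    have h3 := WW_lower k
    have h4 : ((k : ℝ) + 7) ^ 4 / (2592 * 4 ^ (k + 1)) * gr (sh (2 ^ k)) f ≤ 2 * D := by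
      have h5 := mul_le_mul_of_nonneg_right h3 (gr_nonneg (sh (2 ^ k)) f)
      linarith
    have hk7 : (0 : ℝ) < (k : ℝ) + 7 := by positivity
    rw [div_mul_eq_mul_div, div_le_iff₀ (by positivity)] at h4
    rw [mul_pow, div_pow, mul_pow, hxx, div_mul_eq_mul_div, le_div_iff₀ (by positivity)]
    have h6 : ((2 : ℝ) ^ k) ^ 2 = 4 ^ k := by
      rw [← pow_mul, mul_comm, pow_mul]
      norm_num
    rw [h6]
    calc gr (sh (2 ^ k)) f * (((k : ℝ) + 7) ^ 2) ^ 2
        = ((k : ℝ) + 7) ^ 4 * gr (sh (2 ^ k)) f := by ring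
      _ ≤ 2 * D * (2592 * 4 ^ (k + 1)) := h4
      _ = 144 ^ 2 * 4 ^ k * D := by rw [pow_succ]; ring
  -- the averages
  have hstep : ∀ k, k < K → |SS (k + 1) f / 4 ^ (k + 1) - SS k f / 4 ^ k| ≤
      (144 / ((k : ℝ) + 7) ^ 2 + 2 * (1 / 2) ^ k) * x := by
    intro k hk
    have hk7 : (0 : ℝ) < (k : ℝ) + 7 := by positivity
    have h1 := SS_step k hf (x := 144 * 2 ^ k / ((k : ℝ) + 7) ^ 2 * x) (z := 4 * x)
      (by positivity) (by positivity) (hj k hk) ht
    have h2 : SS (k + 1) f / 4 ^ (k + 1) - SS k f / 4 ^ k = (SS (k + 1) f - 4 * SS k f) / 4 ^ (k + 1) := by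
      rw [pow_succ]
      field_simp
    rw [h2, abs_div, abs_of_pos (show (0 : ℝ) < 4 ^ (k + 1) by positivity),
      div_le_iff₀ (by positivity)]
    refine h1.trans (le_of_eq ?_)
    have h6 : (4 : ℝ) ^ k = 2 ^ k * 2 ^ k := by
      rw [← mul_pow]
      norm_num
    have h7 : (1 / 2 : ℝ) ^ k * 2 ^ k = 1 := by
      rw [← mul_pow]
      norm_num
    rw [pow_succ 4 k, h6]
    have e1 : (144 / ((k : ℝ) + 7) ^ 2 + 2 * (1 / 2) ^ k) * x * (2 ^ k * 2 ^ k * 4) =
        4 * 2 ^ k * 2 ^ k * (144 / ((k : ℝ) + 7) ^ 2) * x + 8 * 2 ^ k * ((1 / 2) ^ k * 2 ^ k) * x := by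
      ring
    rw [e1, h7]
    ring
  have hlast : |SS K f / 4 ^ K| ≤ 2 * x := by
    refine abs_le_of_sq_le_sq ?_ (by positivity)
    rw [div_pow, div_le_iff₀ (by positivity), mul_pow, hxx]
    refine (SS_sq K hf).trans ?_
    have h1 : RR K * nsq f ≤ D := by rw [hE]; linarith
    have h2 := RR_mul K
    have h3 : (0 : ℝ) < 4 ^ K := by positivity
    have h4 : 1 / 2 * nsq f ≤ 4 ^ K * D := by
      calc 1 / 2 * nsq f ≤ 4 ^ K * RR K * nsq f := mul_le_mul_of_nonneg_right h2 hn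
        _ = 4 ^ K * (RR K * nsq f) := by ring
        _ ≤ 4 ^ K * D := mul_le_mul_of_nonneg_left h1 h3.le
    calc 4 ^ K * nsq f ≤ 4 ^ K * (2 * (4 ^ K * D)) := by
          apply mul_le_mul_of_nonneg_left _ h3.le
          linarith
      _ ≤ 2 ^ 2 * D * (4 ^ K) ^ 2 := by nlinarith [mul_nonneg (sq_nonneg ((4 : ℝ) ^ K)) hD0]
  have htel : ∀ n, n ≤ K → |f (0, 0) - SS n f / 4 ^ n| ≤
      ∑ k ∈ Finset.range n, (144 / ((k : ℝ) + 7) ^ 2 + 2 * (1 / 2) ^ k) * x := by
    intro n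
    induction n with
    | zero =>
      intro _
      rw [SS_zero]
      simp
    | succ n ih =>
      intro hn
      rw [Finset.sum_range_succ]
      have h1 := ih (by omega)
      have h2 := hstep n (by omega)
      have h3 : f (0, 0) - SS (n + 1) f / 4 ^ (n + 1) = (f (0, 0) - SS n f / 4 ^ n) -
          (SS (n + 1) f / 4 ^ (n + 1) - SS n f / 4 ^ n) := by ring
      rw [h3]
      exact (abs_sub _ _).trans (add_le_add h1 h2)
  have hfin := htel K le_rfl
  rw [← Finset.sum_mul, Finset.sum_add_distrib, geom_bound] at hfin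
  have hs := sq_sum_bound K
  have hp1 : (0 : ℝ) ≤ 4 * (1 / 2) ^ K := by positivity
  have hp2 : (0 : ℝ) ≤ 144 / ((K : ℝ) + 6) := by positivity
  have hf0 : |f (0, 0)| ≤ 30 * x := by
    have h1 : |f (0, 0)| ≤ |f (0, 0) - SS K f / 4 ^ K| + |SS K f / 4 ^ K| := by
      have := abs_add_le (f (0, 0) - SS K f / 4 ^ K) (SS K f / 4 ^ K)
      rwa [sub_add_cancel] at this
    have h2 : (∑ k ∈ Finset.range K, 144 / ((k : ℝ) + 7) ^ 2 + (4 - 4 * (1 / 2) ^ K)) * x ≤ 28 * x := by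
      apply mul_le_mul_of_nonneg_right _ hx0
      linarith
    linarith
  have h9 : f (0, 0) ^ 2 ≤ (30 * x) ^ 2 := by
    rw [← sq_abs]
    exact pow_le_pow_left₀ (abs_nonneg _) hf0 2
  rw [mul_pow, hxx] at h9
  linarith

end Pool.Agent.H34.MI
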