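import Mathlib

/-!
Energy identity for finite combinations of permutations and finitely supported functions.
-/

namespace Pool.Agent.H34.MI

variable {Y : Type*}

/-- the square of the norm. -/
noncomputable def nsq (f : Y → ℝ) : ℝ := ∑' y, f y ^ 2

/-- the square of the norm of the gradient in the direction of `σ`. -/
noncomputable def gr (σ : Equiv.Perm Y) (f : Y → ℝ) : ℝ := ∑' y, (f (σ y) - f y) ^ 2

/-- the operator with `K` symmetric terms. -/
noncomputable def QQ (b : ℝ) (c : ℕ → ℝ) (σ : ℕ → Equiv.Perm Y) (K : ℕ) (f : Y → ℝ) (y : Y) : ℝ :=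
  b * f y + ∑ k ∈ Finset.range K, c k / 2 * (f (σ k y) + f ((σ k).symm y))

/-- the energy. -/
noncomputable def DD (b : ℝ) (c : ℕ → ℝ) (σ : ℕ → Equiv.Perm Y) (K : ℕ) (f : Y → ℝ) : ℝ :=
  ∑' y, f y * (f y - QQ b c σ K f y)

theorem nsq_nonneg (f : Y → ℝ) : 0 ≤ nsq f := tsum_nonneg fun _ => sq_nonneg _

theorem gr_nonneg (σ : Equiv.Perm Y) (f : Y → ℝ) : 0 ≤ gr σ f := tsum_nonneg fun _ => sq_nonneg _

theorem summable_fs {f : Y → ℝ} (hf : (Function.support f).Finite) (g : Y → ℝ) :
    Summable fun y => f y * g y := by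
  refine summable_of_hasFiniteSupport (hf.subset fun y hy => ?_)
  rw [Function.mem_support] at hy ⊢
  exact left_ne_zero_of_mul hy

theorem summable_sq {f : Y → ℝ} (hf : (Function.support f).Finite) :
    Summable fun y => f y ^ 2 := by
  refine (summable_fs hf f).congr fun y => ?_
  rw [sq]

theorem support_comp {f : Y → ℝ} (hf : (Function.support f).Finite) (σ : Equiv.Perm Y) :
    (Function.support fun y => f (σ y)).Finite := by
  have h : (Function.support fun y => f (σ y)) = σ ⁻¹' (Function.support f) := rfl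
  rw [h]
  exact hf.preimage σ.injective.injOn

theorem support_grad {f : Y → ℝ} (hf : (Function.support f).Finite) (σ : Equiv.Perm Y) :
    (Function.support fun y => f (σ y) - f y).Finite :=
  ((support_comp hf σ).union hf).subset (Function.support_sub _ _)

/-- `⟨f, f ∘ σ⟩ = |f|² - ½ |∇_σ f|²`. -/
theorem ip_perm {f : Y → ℝ} (hf : (Function.support f).Finite) (σ : Equiv.Perm Y) :
    ∑' y, f y * f (σ y) = nsq f - gr σ f / 2 := by
  have h1 : nsq (fun y => f (σ y)) = nsq f := σ.tsum_eq (fun y => f y ^ 2)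
  have s1 := summable_sq hf
  have s2 : Summable fun y => (f (σ y)) ^ 2 := summable_sq (support_comp hf σ)
  have s3 := summable_fs hf fun y => f (σ y)
  have h2 : gr σ f = nsq (fun y => f (σ y)) + nsq f - 2 * ∑' y, f y * f (σ y) := by
    unfold gr nsq
    rw [← s2.tsum_add s1, ← tsum_mul_left, ← (s2.add s1).tsum_sub (s3.mul_left 2)]
    refine tsum_congr fun y => ?_
    ring
  rw [h2, h1]
  ring

theorem ip_symm {f : Y → ℝ} (σ : Equiv.Perm Y) :
    ∑' y, f y * f (σ.symm y) = ∑' y, f y * f (σ y) := by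
  rw [← σ.tsum_eq (fun y => f y * f (σ.symm y))]
  refine tsum_congr fun y => ?_
  rw [Equiv.symm_apply_apply, mul_comm]

theorem energy (b : ℝ) (c : ℕ → ℝ) (σ : ℕ → Equiv.Perm Y) (K : ℕ) {f : Y → ℝ}
    (hf : (Function.support f).Finite) :
    DD b c σ K f = (1 - b - ∑ k ∈ Finset.range K, c k) * nsq f +
      ∑ k ∈ Finset.range K, c k / 2 * gr (σ k) f := by
  induction K with
  | zero =>
    unfold DD QQ nsq
    rw [← tsum_mul_left]
    simp only [Finset.range_zero, Finset.sum_empty, add_zero, sub_zero]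
    refine tsum_congr fun y => ?_
    ring
  | succ K ih =>
    have s0 := summable_fs hf fun y => f y - QQ b c σ K f y
    have s1 := (summable_fs hf fun y => f (σ K y)).mul_left (c K / 2)
    have s2 := (summable_fs hf fun y => f ((σ K).symm y)).mul_left (c K / 2)
    have h : DD b c σ (K + 1) f = DD b c σ K f - (c K / 2 * ∑' y, f y * f (σ K y) +
        c K / 2 * ∑' y, f y * f ((σ K).symm y)) := by
      unfold DD
      rw [← tsum_mul_left, ← tsum_mul_left, ← s1.tsum_add s2, ← s0.tsum_sub (s1.add s2)]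
      refine tsum_congr fun y => ?_
      unfold QQ
      rw [Finset.sum_range_succ]
      ring
    rw [h, ih, ip_symm, ip_perm hf, Finset.sum_range_succ, Finset.sum_range_succ]
    ring

end Pool.Agent.H34.MI
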